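import Pool.Agent.H.MP_5bc4af_co.L4.Def

/-!
# Tails and inserted vertices of one colour

`tz`: `tm`: `Ord.mv`, `Spc.sm`, `Spc.um`. `tt`: heads and tails of ordinary arcs are outside `F` and
different by `Ord.dj`; those of different blocks are different by `Spc.dj` (for colour `c` the blocks `(c, b)`
and `(c - 1, b)` are used); inside the block `(c, b)` `sm`, inside the block `(c - 1, b)` `um`. `te`: `Ord.ex`.
`zm`: `Spc.us`. `zv`, `zi`: `s (c - 1) true ≠ s (c - 1) false` and `u (c - 1) true ≠ u (c - 1) false` by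
`Spc.dj`.
`sep`: a vertex of colour `c` is an end of an ordinary arc (outside `F`), or `s c b`, `σ c (s c b)`
(block `(c, b)`), or `u (c - 1) b`, `σ c (u (c - 1) b)` or the inserted `s (c - 1) b` (block `(c - 1, b)`). So for
`c < c'` a common vertex is in a block `(c, b)` with `c' - 1 = c`, and there `d1`, `d2`, `d3`, `sm`.
`hd1`: `σ c t` is a vertex of the other colour `c'` only if it is some `s`: `tt` (and `zm` for an inserted
`s`) give a contradiction.
-/

namespace Pool.Agent.H.MP_5bc4af.L4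

open Finset Pool.Agent.H.MP_5bc4af.H5 Pool.Agent.H.MP_5bc4af.L3

variable {V : Type*} [Fintype V] [DecidableEq V]

/-- the tails of colour `c` -/
def TT (m : ℕ) (s u : ℕ → Bool → V) (O : ℕ → Finset V) (c : ℕ) : Finset V :=
  O c ∪ ((if c + 1 < m then univ.image (s c) else ∅) ∪
    if 0 < c then univ.image (u (c - 1)) else ∅)

/-- the inserted vertices of colour `c` -/
def ZZ (s u : ℕ → Bool → V) (c : ℕ) : Finset V :=
  if 0 < c then (univ.filter fun b => u (c - 1) b ≠ s (c - 1) b).image (s (c - 1)) else ∅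

/-- the neighbour of an inserted vertex -/
def vv (s u : ℕ → Bool → V) (c : ℕ) (x : V) : V :=
  if x = s (c - 1) true then u (c - 1) true else u (c - 1) false

/-- `z` is a vertex of colour `c` -/
def Vx (m : ℕ) (σ : ℕ → Equiv.Perm V) (s u : ℕ → Bool → V) (O : ℕ → Finset V) (c : ℕ) (z : V) :
    Prop :=
  z ∈ TT m s u O c ∨ (σ c)⁻¹ z ∈ TT m s u O c ∨ z ∈ ZZ s u c

private theorem memT {m : ℕ} {s u : ℕ → Bool → V} {O : ℕ → Finset V} {c : ℕ} {z : V} :
    z ∈ TT m s u O c ↔ z ∈ O c ∨ (c + 1 < m ∧ ∃ b, s c b = z) ∨ (0 < c ∧ ∃ b, u (c - 1) b = z) := by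
  unfold TT
  rw [mem_union, mem_union]
  constructor
  · rintro (h | h | h)
    · exact Or.inl h
    · by_cases hc : c + 1 < m
      · rw [if_pos hc, mem_image] at h
        obtain ⟨b, -, hb⟩ := h
        exact Or.inr (Or.inl ⟨hc, b, hb⟩)
      · rw [if_neg hc] at h
        exact absurd h (notMem_empty _)
    · by_cases hc : 0 < c
      · rw [if_pos hc, mem_image] at h
        obtain ⟨b, -, hb⟩ := h
        exact Or.inr (Or.inr ⟨hc, b, hb⟩)
      · rw [if_neg hc] at h
        exact absurd h (notMem_empty _)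
  · rintro (h | ⟨hc, b, hb⟩ | ⟨hc, b, hb⟩)
    · exact Or.inl h
    · right; left
      rw [if_pos hc, mem_image]
      exact ⟨b, mem_univ _, hb⟩
    · right; right
      rw [if_pos hc, mem_image]
      exact ⟨b, mem_univ _, hb⟩

private theorem memZ {s u : ℕ → Bool → V} {c : ℕ} {z : V} :
    z ∈ ZZ s u c ↔ 0 < c ∧ ∃ b, u (c - 1) b ≠ s (c - 1) b ∧ s (c - 1) b = z := by
  unfold ZZ
  constructor
  · intro h
    by_cases hc : 0 < c
    · rw [if_pos hc, mem_image] at h
      obtain ⟨b, hb, hz⟩ := h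
      exact ⟨hc, b, (mem_filter.mp hb).2, hz⟩
    · rw [if_neg hc] at h
      exact absurd h (notMem_empty _)
  · rintro ⟨hc, b, hb, hz⟩
    rw [if_pos hc, mem_image]
    exact ⟨b, mem_filter.mpr ⟨mem_univ _, hb⟩, hz⟩

section

variable {m : ℕ} {σ : ℕ → Equiv.Perm V} {s u : ℕ → Bool → V} {F : Finset V} {O : ℕ → Finset V}

omit [Fintype V] in
private theorem b1 (j : ℕ) (b : Bool) : s j b ∈ blk σ s u j b := by simp [blk]

omit [Fintype V] in
private theorem b2 (j : ℕ) (b : Bool) : σ j (s j b) ∈ blk σ s u j b := by simp [blk]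

omit [Fintype V] in
private theorem b3 (j : ℕ) (b : Bool) : u j b ∈ blk σ s u j b := by simp [blk]

omit [Fintype V] in
private theorem b4 (j : ℕ) (b : Bool) : σ (j + 1) (u j b) ∈ blk σ s u j b := by simp [blk]

omit [Fintype V] in
private theorem bj (hS : Spc m σ s u F) {j j' : ℕ} {b b' : Bool} (hj : j + 1 < m)
    (hj' : j' + 1 < m) {z : V} (h : z ∈ blk σ s u j b) (h' : z ∈ blk σ s u j' b') :
    j = j' ∧ b = b' := by
  by_contra hne
  have hn : (j, b) ≠ (j', b') := by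
    intro he
    rw [Prod.mk.injEq] at he
    exact hne he
  exact (disjoint_left.mp (hS.dj j b j' b' hj hj' hn)) h h'

omit [Fintype V] in
private theorem bF (hS : Spc m σ s u F) {j : ℕ} {b : Bool} (hj : j + 1 < m) {z : V}
    (h : z ∈ blk σ s u j b) : z ∈ F := hS.sub j b hj h

omit [Fintype V] in
private theorem vs (hS : Spc m σ s u F) {j : ℕ} (hj : j + 1 < m) (b : Bool) :
    vv s u (j + 1) (s j b) = u j b := by
  unfold vv
  rw [Nat.add_sub_cancel]
  cases b with
  | true => rw [if_pos rfl]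
  | false =>
    rw [if_neg]
    intro he
    have h1 : s j false ∈ blk σ s u j false := b1 j false
    have h2 : s j false ∈ blk σ s u j true := by
      rw [he]
      exact b1 j true
    have := (bj hS hj hj h1 h2).2
    exact Bool.false_ne_true this

private theorem cls {c : ℕ} (hc : c < m) {z : V} (h : Vx m σ s u O c z) :
    (∃ t ∈ O c, z = t ∨ z = σ c t) ∨
      (c + 1 < m ∧ ∃ b, z = s c b ∨ z = σ c (s c b)) ∨
      (∃ j, c = j + 1 ∧ ∃ b, z = u j b ∨ z = σ (j + 1) (u j b) ∨ z = s j b) := by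
  rcases h with h | h | h
  · rcases memT.mp h with h | ⟨hm, b, hb⟩ | ⟨h0, b, hb⟩
    · exact Or.inl ⟨z, h, Or.inl rfl⟩
    · exact Or.inr (Or.inl ⟨hm, b, Or.inl hb.symm⟩)
    · obtain ⟨j, rfl⟩ : ∃ j, c = j + 1 := ⟨c - 1, by omega⟩
      rw [Nat.add_sub_cancel] at hb
      exact Or.inr (Or.inr ⟨j, rfl, b, Or.inl hb.symm⟩)
  · have hz : z = σ c ((σ c)⁻¹ z) := by simp
    rcases memT.mp h with h | ⟨hm, b, hb⟩ | ⟨h0, b, hb⟩
    · exact Or.inl ⟨_, h, Or.inr hz⟩
    · refine Or.inr (Or.inl ⟨hm, b, Or.inr ?_⟩)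
      rw [hb]
      exact hz
    · obtain ⟨j, rfl⟩ : ∃ j, c = j + 1 := ⟨c - 1, by omega⟩
      rw [Nat.add_sub_cancel] at hb
      refine Or.inr (Or.inr ⟨j, rfl, b, Or.inr (Or.inl ?_)⟩)
      rw [hb]
      exact hz
  · obtain ⟨h0, b, -, hb⟩ := memZ.mp h
    obtain ⟨j, rfl⟩ : ∃ j, c = j + 1 := ⟨c - 1, by omega⟩
    rw [Nat.add_sub_cancel] at hb
    exact Or.inr (Or.inr ⟨j, rfl, b, Or.inr (Or.inr hb.symm)⟩)

end

theorem tz {m : ℕ} {σ : ℕ → Equiv.Perm V} {s u : ℕ → Bool → V} {F : Finset V}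
    {O : ℕ → Finset V} (h3 : ∀ c, c < m → P3 (σ c)) (hS : Spc m σ s u F) (hO : Ord m σ F O)
    {c : ℕ} (hc : c < m) : TZ (σ c) (TT m s u O c) (ZZ s u c) (vv s u c) := by
  have htm : ∀ t ∈ TT m s u O c, σ c t ≠ t := by
    intro t ht
    rcases memT.mp ht with h | ⟨hm, b, hb⟩ | ⟨h0, b, hb⟩
    · exact hO.mv c hc t h
    · rw [← hb]
      exact hS.sm c b hm
    · obtain ⟨j, rfl⟩ : ∃ j, c = j + 1 := ⟨c - 1, by omega⟩
      rw [Nat.add_sub_cancel] at hb
      rw [← hb]
      exact hS.um j b hc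
  refine ⟨h3 c hc, htm, ?_, ?_, ?_, ?_, ?_⟩
  · intro t ht ht'
    have hne := htm t ht
    rcases memT.mp ht with h | ⟨hm, b, hb⟩ | ⟨h0, b, hb⟩
    · rcases memT.mp ht' with h' | ⟨hm', b', hb'⟩ | ⟨h0', b', hb'⟩
      · have hn : (c, t) ≠ (c, σ c t) := by
          intro he
          rw [Prod.mk.injEq] at he
          exact hne he.2.symm
        exact (hO.dj c c hc hc t h (σ c t) h' hn).2.2.1 rfl
      · refine hO.f2 c hc t h ?_
        rw [← hb']
        exact bF hS hm' (b1 (σ := σ) (u := u) c b')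
      · obtain ⟨j, rfl⟩ : ∃ j, c = j + 1 := ⟨c - 1, by omega⟩
        rw [Nat.add_sub_cancel] at hb'
        refine hO.f2 (j + 1) hc t h ?_
        rw [← hb']
        exact bF hS hc (b3 (σ := σ) (s := s) j b')
    · have hB : σ c t ∈ blk σ s u c b := by
        rw [← hb]
        exact b2 c b
      rcases memT.mp ht' with h' | ⟨hm', b', hb'⟩ | ⟨h0', b', hb'⟩
      · exact hO.f1 c hc _ h' (bF hS hm hB)
      · have hB' : σ c t ∈ blk σ s u c b' := by
          rw [← hb']
          exact b1 c b'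
        have he := (bj hS hm hm hB hB').2
        rw [← he, hb] at hb'
        exact hne hb'.symm
      · obtain ⟨j, rfl⟩ : ∃ j, c = j + 1 := ⟨c - 1, by omega⟩
        rw [Nat.add_sub_cancel] at hb'
        have hB' : σ (j + 1) t ∈ blk σ s u j b' := by
          rw [← hb']
          exact b3 j b'
        have := (bj hS hm hc hB hB').1
        omega
    · obtain ⟨j, rfl⟩ : ∃ j, c = j + 1 := ⟨c - 1, by omega⟩
      rw [Nat.add_sub_cancel] at hb
      have hB : σ (j + 1) t ∈ blk σ s u j b := by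
        rw [← hb]
        exact b4 j b
      rcases memT.mp ht' with h' | ⟨hm', b', hb'⟩ | ⟨h0', b', hb'⟩
      · exact hO.f1 (j + 1) hc _ h' (bF hS hc hB)
      · have hB' : σ (j + 1) t ∈ blk σ s u (j + 1) b' := by
          rw [← hb']
          exact b1 (j + 1) b'
        have := (bj hS hc hm' hB hB').1
        omega
      · rw [Nat.add_sub_cancel] at hb'
        have hB' : σ (j + 1) t ∈ blk σ s u j b' := by
          rw [← hb']
          exact b3 j b'
        have he := (bj hS hc hc hB hB').2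
        rw [← he, hb] at hb'
        exact hne hb'.symm
  · intro x hx
    obtain ⟨t, ht, hxt⟩ := hO.ex c hc x hx
    exact ⟨t, memT.mpr (Or.inl ht), hxt⟩
  · intro x hx
    obtain ⟨h0, b, hb, hx⟩ := memZ.mp hx
    obtain ⟨j, rfl⟩ : ∃ j, c = j + 1 := ⟨c - 1, by omega⟩
    rw [Nat.add_sub_cancel] at hb hx
    rw [← hx]
    exact (hS.us j b hc).resolve_left hb
  · intro x hx
    obtain ⟨h0, b, hb, hx⟩ := memZ.mp hx
    obtain ⟨j, rfl⟩ : ∃ j, c = j + 1 := ⟨c - 1, by omega⟩
    rw [Nat.add_sub_cancel] at hb hx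
    rw [← hx, vs hS hc b]
    refine memT.mpr (Or.inr (Or.inr ⟨h0, b, ?_⟩))
    rw [Nat.add_sub_cancel]
  · intro x hx y hy hxy
    obtain ⟨h0, b, hb, hx⟩ := memZ.mp hx
    obtain ⟨-, b', hb', hy⟩ := memZ.mp hy
    obtain ⟨j, rfl⟩ : ∃ j, c = j + 1 := ⟨c - 1, by omega⟩
    rw [Nat.add_sub_cancel] at hb hx hb' hy
    rw [← hx, ← hy, vs hS hc b, vs hS hc b'] at hxy
    have h1 : u j b ∈ blk σ s u j b := b3 j b
    have h2 : u j b ∈ blk σ s u j b' := by
      rw [hxy]
      exact b3 j b'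
    have he := (bj hS hc hc h1 h2).2
    rw [← hx, ← hy, he]

theorem sep {m : ℕ} {σ : ℕ → Equiv.Perm V} {s u : ℕ → Bool → V} {F : Finset V}
    {O : ℕ → Finset V} (hS : Spc m σ s u F) (hO : Ord m σ F O) {c c' : ℕ} (hc : c < c')
    (hm : c' < m) {z : V} (h1 : Vx m σ s u O c z) (h2 : Vx m σ s u O c' z) :
    c' = c + 1 ∧ ∃ b, z = s c b := by
  have hcm : c < m := lt_trans hc hm
  have hOF : ∀ k, k < m → ∀ t ∈ O k, (z = t ∨ z = σ k t) → z ∉ F := by
    intro k hk t ht hz
    rcases hz with hz | hz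
    · rw [hz]
      exact hO.f1 k hk t ht
    · rw [hz]
      exact hO.f2 k hk t ht
  have hBs : ∀ k b, (z = s k b ∨ z = σ k (s k b)) → z ∈ blk σ s u k b := by
    intro k b hz
    rcases hz with hz | hz
    · rw [hz]
      exact b1 k b
    · rw [hz]
      exact b2 k b
  have hBu : ∀ k b, (z = u k b ∨ z = σ (k + 1) (u k b) ∨ z = s k b) → z ∈ blk σ s u k b := by
    intro k b hz
    rcases hz with hz | hz | hz
    · rw [hz]
      exact b3 k b
    · rw [hz]
      exact b4 k b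
    · rw [hz]
      exact b1 k b
  rcases cls hcm h1 with ⟨t, ht, hz⟩ | ⟨hk, b, hz⟩ | ⟨j, rfl, b, hz⟩
  · rcases cls hm h2 with ⟨t', ht', hz'⟩ | ⟨hk', b', hz'⟩ | ⟨j', rfl, b', hz'⟩
    · exfalso
      have hn : (c, t) ≠ (c', t') := by
        intro he
        rw [Prod.mk.injEq] at he
        omega
      obtain ⟨e1, e2, e3, e4⟩ := hO.dj c c' hcm hm t ht t' ht' hn
      rcases hz with hz | hz <;> rcases hz' with hz' | hz'
      · exact e1 (hz.symm.trans hz')
      · exact e2 (hz.symm.trans hz')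
      · exact e3 (hz.symm.trans hz')
      · exact e4 (hz.symm.trans hz')
    · exact absurd (bF hS hk' (hBs c' b' hz')) (hOF c hcm t ht hz)
    · exact absurd (bF hS hm (hBu j' b' hz')) (hOF c hcm t ht hz)
  · rcases cls hm h2 with ⟨t', ht', hz'⟩ | ⟨hk', b', hz'⟩ | ⟨j', rfl, b', hz'⟩
    · exact absurd (bF hS hk (hBs c b hz)) (hOF c' hm t' ht' hz')
    · have := (bj hS hk hk' (hBs c b hz) (hBs c' b' hz')).1
      omega
    · obtain ⟨rfl, rfl⟩ := bj hS hk hm (hBs c b hz) (hBu j' b' hz')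
      refine ⟨rfl, b, ?_⟩
      rcases hz with hz | hz
      · exact hz
      · exfalso
        rcases hz' with hz' | hz' | hz'
        · exact hS.d1 c b hk (hz'.symm.trans hz)
        · exact hS.d3 c b hk (hz'.symm.trans hz)
        · exact hS.sm c b hk (hz.symm.trans hz')
  · rcases cls hm h2 with ⟨t', ht', hz'⟩ | ⟨hk', b', hz'⟩ | ⟨j', rfl, b', hz'⟩
    · exact absurd (bF hS hcm (hBu j b hz)) (hOF c' hm t' ht' hz')
    · have := (bj hS hcm hk' (hBu j b hz) (hBs c' b' hz')).1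
      omega
    · have := (bj hS hcm hm (hBu j b hz) (hBu j' b' hz')).1
      omega

/-- heads are in one colour only -/
theorem hd1 {m : ℕ} {σ : ℕ → Equiv.Perm V} {s u : ℕ → Bool → V} {F : Finset V}
    {O : ℕ → Finset V} (h3 : ∀ c, c < m → P3 (σ c)) (hS : Spc m σ s u F) (hO : Ord m σ F O)
    {c c' : ℕ} (hc : c < m) (hc' : c' < m) (hne : c ≠ c') {z : V}
    (h1 : (σ c)⁻¹ z ∈ TT m s u O c) : ¬ Vx m σ s u O c' z := by
  intro h2
  have hT := tz h3 hS hO hc
  have hz : σ c ((σ c)⁻¹ z) = z := by simp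
  have hV : Vx m σ s u O c z := Or.inr (Or.inl h1)
  have htt := hT.tt _ h1
  have htm := hT.tm _ h1
  rw [hz] at htt htm
  rcases lt_or_gt_of_ne hne with hlt | hlt
  · obtain ⟨rfl, b, rfl⟩ := sep hS hO hlt hc' hV h2
    exact htt (memT.mpr (Or.inr (Or.inl ⟨hc', b, rfl⟩)))
  · obtain ⟨rfl, b, rfl⟩ := sep hS hO hlt hc h2 hV
    by_cases hu : u c' b = s c' b
    · refine htt (memT.mpr (Or.inr (Or.inr ⟨Nat.succ_pos _, b, ?_⟩)))
      rw [Nat.add_sub_cancel]
      exact hu
    · have hZ : s c' b ∈ ZZ s u (c' + 1) := by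
        refine memZ.mpr ⟨Nat.succ_pos _, b, ?_, ?_⟩
        · rw [Nat.add_sub_cancel]
          exact hu
        · rw [Nat.add_sub_cancel]
      have hfix := hT.zm _ hZ
      apply htm
      apply (σ (c' + 1)).injective
      rw [hz, hfix]

/-- `s c b` is a tail without an inserted neighbour or an inserted vertex, in both colours -/
theorem spc1 {m : ℕ} {σ : ℕ → Equiv.Perm V} {s u : ℕ → Bool → V} {F : Finset V}
    {O : ℕ → Finset V} (hS : Spc m σ s u F) {c : ℕ} (hc : c + 1 < m) (b : Bool) :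
    (s c b ∈ TT m s u O c ∧ ∀ x ∈ ZZ s u c, vv s u c x ≠ s c b) ∧
      ((s c b ∈ TT m s u O (c + 1) ∧ ∀ x ∈ ZZ s u (c + 1), vv s u (c + 1) x ≠ s c b) ∨
        s c b ∈ ZZ s u (c + 1)) := by
  refine ⟨⟨memT.mpr (Or.inr (Or.inl ⟨hc, b, rfl⟩)), ?_⟩, ?_⟩
  · intro x hx hv
    obtain ⟨h0, b', hb', hx⟩ := memZ.mp hx
    obtain ⟨j, rfl⟩ : ∃ j, c = j + 1 := ⟨c - 1, by omega⟩
    rw [Nat.add_sub_cancel] at hb' hx
    have hj : j + 1 < m := by omega
    rw [← hx, vs hS hj b'] at hv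
    have h1 : u j b' ∈ blk σ s u j b' := b3 j b'
    have h2 : u j b' ∈ blk σ s u (j + 1) b := by
      rw [hv]
      exact b1 (j + 1) b
    have := (bj hS hj hc h1 h2).1
    omega
  · by_cases hu : u c b = s c b
    · left
      refine ⟨memT.mpr (Or.inr (Or.inr ⟨Nat.succ_pos _, b, ?_⟩)), ?_⟩
      · rw [Nat.add_sub_cancel]
        exact hu
      · intro x hx hv
        obtain ⟨h0, b', hb', hx⟩ := memZ.mp hx
        rw [Nat.add_sub_cancel] at hb' hx
        rw [← hx, vs hS hc b'] at hv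
        have h1 : u c b' ∈ blk σ s u c b' := b3 c b'
        have h2 : u c b' ∈ blk σ s u c b := by
          rw [hv]
          exact b1 c b
        have he := (bj hS hc hc h1 h2).2
        rw [he] at hb'
        exact hb' hu
    · right
      refine memZ.mpr ⟨Nat.succ_pos _, b, ?_, ?_⟩
      · rw [Nat.add_sub_cancel]
        exact hu
      · rw [Nat.add_sub_cancel]

end Pool.Agent.H.MP_5bc4af.L4
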