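import Pool.Agent.H.MP_5bc4af_co.L4.GluA
import Pool.Agent.H.MP_5bc4af_co.L3.Crit

/-!
# Gluing the colours: `crit` for the `L c` and the sum of the `D c`

A vertex `z` is special if `dg (D c) z ≠ 0` for two colours `c < c'`; then `c' = c + 1`, `z = x c` or
`z = y c`, and both degrees are one; no vertex is in three colours.
`gluA` (GluA.lean) gives the linear forest `D₀ = ∑ c, D c` with its degrees.
`glue`: `crit` for `ι = Option (Fin m)`, `f none = D₀`, `f (some c) = L c`. Ends of `L c` and of `D c` are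
the same. Ends of `D₀`: vertices which are an end of exactly one `D c` and not special. Common ends of
`L c` and `L c'`, `c < c'`: `{x c, y c}` if `c' = c + 1`, else none. The number of ends of `D c` is even
(`θD c` is an involution without fixed points), minus two or four or zero special ones: even.
`hc` for `i = some c`: if `z` is a common end of `L c` and `L c'` then `θL c z` is an end of `D₀` (`hth`), so
every type is connected to the type `none` (both directions: `θL c (θL c z) = z`). `hc` for `i = none`: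
`θD c (x c)` and `θD (c + 1) (x c)` are ends of `D₀` (`hth`) which are joined in `D₀` through `x c`, so they
are exchanged by `θ₀` (`uni`): the types `some c` and `some (c + 1)` are connected.
-/

namespace Pool.Agent.H.MP_5bc4af.L4

open Finset Pool.Agent.H.MP_5bc4af.H5 Pool.Agent.H.MP_5bc4af.L3

variable {V : Type*} [Fintype V] [DecidableEq V]

/-- an end goes to the other end -/
private theorem Glue_end {f : Sym2 V → ZMod 2} {θ : V → V} (h : LF f θ) {x : V}
    (hx : dg f x = 1) : dg f (θ x) = 1 ∧ θ (θ x) = x ∧ θ x ≠ x := by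
  have h1 := h.low x hx.le
  have h2 := h.inv x hx.le
  have h3 := h.one x hx
  refine ⟨?_, h2, h3⟩
  rcases Nat.eq_zero_or_pos (dg f (θ x)) with h4 | h4
  · have h5 := h.iso _ h4
    rw [h2] at h5
    exact absurd h5.symm h3
  · omega

/-- the number of ends is even -/
private theorem Glue_even {f : Sym2 V → ZMod 2} {θ : V → V} (h : LF f θ) :
    Even (univ.filter fun x => dg f x = 1).card := by
  rw [← ZMod.natCast_eq_zero_iff_even, Finset.card_eq_sum_ones, Nat.cast_sum]
  refine Finset.sum_involution (fun x _ => θ x) ?_ ?_ ?_ ?_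
  · intro x _
    rfl
  · intro x hx _
    exact (Glue_end h (Finset.mem_filter.1 hx).2).2.2
  · intro x hx
    rw [Finset.mem_filter]
    exact ⟨Finset.mem_univ _, (Glue_end h (Finset.mem_filter.1 hx).2).1⟩
  · intro x hx
    exact (Glue_end h (Finset.mem_filter.1 hx).2).2.1

private theorem Glue_alone {m : ℕ} {D : Fin m → Sym2 V → ZMod 2} {z : V}
    (hdg : dg (∑ c, D c) z = ∑ c, dg (D c) z) {c : Fin m} (h1 : dg (D c) z = 1)
    (h0 : ∀ c', c' ≠ c → dg (D c') z = 0) : dg (∑ c, D c) z = 1 := by
  rw [hdg, Finset.sum_eq_single c (fun c' _ h => h0 c' h)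
    (fun h => absurd (Finset.mem_univ c) h), h1]

private theorem Glue_one {m : ℕ} {D : Fin m → Sym2 V → ZMod 2} {z : V}
    (hdg : dg (∑ c, D c) z = ∑ c, dg (D c) z) (h : dg (∑ c, D c) z = 1) :
    ∃ c, dg (D c) z = 1 ∧ ∀ c', c' ≠ c → dg (D c') z = 0 := by
  rw [hdg] at h
  obtain ⟨c, hc⟩ : ∃ c, dg (D c) z ≠ 0 := by
    by_contra hcon
    push Not at hcon
    rw [Finset.sum_eq_zero fun c _ => hcon c] at h
    exact absurd h (by norm_num)
  have h1' : dg (D c) z + ∑ c' ∈ univ.erase c, dg (D c') z = 1 :=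
    (Finset.add_sum_erase univ (fun c => dg (D c) z) (Finset.mem_univ c)).trans h
  refine ⟨c, by omega, fun c' hc' => ?_⟩
  have h2 : dg (D c') z ≤ ∑ c' ∈ univ.erase c, dg (D c') z :=
    Finset.single_le_sum (f := fun c' => dg (D c') z) (fun _ _ => Nat.zero_le _)
      (Finset.mem_erase.2 ⟨hc', Finset.mem_univ c'⟩)
  omega

/-- the parity of one class, given the others -/
private theorem Glue_par {ι : Type*} [Fintype ι] [DecidableEq ι] (E : ι → Finset V) (i k : ι)
    (hki : k ≠ i) (h1 : ∀ x ∈ E i, ∃ j, j ≠ i ∧ x ∈ E j)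
    (h2 : ∀ x j l, x ∈ E i → x ∈ E j → x ∈ E l → i = j ∨ j = l ∨ i = l)
    (hi : Even (E i).card) (hev : ∀ j, j ≠ i → j ≠ k → Even (E i ∩ E j).card) :
    Even (E i ∩ E k).card := by
  have h3 : E i = (univ.erase i).biUnion fun j => E i ∩ E j := by
    ext x
    rw [Finset.mem_biUnion]
    constructor
    · intro hx
      obtain ⟨j, hj, hxj⟩ := h1 x hx
      exact ⟨j, Finset.mem_erase.2 ⟨hj, Finset.mem_univ j⟩, Finset.mem_inter.2 ⟨hx, hxj⟩⟩
    · rintro ⟨j, _, hx⟩
      exact (Finset.mem_inter.1 hx).1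
  have h4 : (E i).card = ∑ j ∈ univ.erase i, (E i ∩ E j).card := by
    conv_lhs => rw [h3]
    refine Finset.card_biUnion fun j hj l hl hjl => ?_
    refine Finset.disjoint_left.2 ?_
    intro x hx hx'
    rcases h2 x j l (Finset.mem_inter.1 hx).1 (Finset.mem_inter.1 hx).2
      (Finset.mem_inter.1 hx').2 with h5 | h5 | h5
    · exact (Finset.mem_erase.1 hj).1 h5.symm
    · exact hjl h5
    · exact (Finset.mem_erase.1 hl).1 h5.symm
  have hk : k ∈ univ.erase i := Finset.mem_erase.2 ⟨hki, Finset.mem_univ k⟩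
  rw [h4, ← Finset.add_sum_erase _ _ hk, Nat.even_add] at hi
  refine hi.2 (Finset.even_sum _ ?_)
  intro j hj
  obtain ⟨hjk, hj'⟩ := Finset.mem_erase.1 hj
  exact hev j (Finset.mem_erase.1 hj').1 hjk

theorem glue {m : ℕ} (L D : Fin m → Sym2 V → ZMod 2) (θL θD : Fin m → V → V) (x y : ℕ → V)
    (hL : ∀ c, LF (L c) (θL c)) (hD : ∀ c, LF (D c) (θD c))
    (hLD : ∀ c z, dg (L c) z = 1 ↔ dg (D c) z = 1)
    (hsp : ∀ c c' : Fin m, c < c' → ∀ z, dg (D c) z ≠ 0 → dg (D c') z ≠ 0 →
      (c' : ℕ) = c + 1 ∧ (z = x c ∨ z = y c))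
    (hx : ∀ c c' : Fin m, (c' : ℕ) = c + 1 → x c ≠ y c ∧ dg (D c) (x c) = 1 ∧
      dg (D c') (x c) = 1 ∧ dg (D c) (y c) = 1 ∧ dg (D c') (y c) = 1)
    (hth : ∀ c c' : Fin m, c ≠ c' → ∀ z, dg (D c) z ≠ 0 → dg (D c') z ≠ 0 →
      ∀ c'' : Fin m, c'' ≠ c → dg (D c'') (θL c z) = 0 ∧ dg (D c'') (θD c z) = 0) :
    Cov (∑ c, (L c + D c)) (m + 1) := by
  obtain ⟨⟨θ₀, h0⟩, hdg, hsup⟩ := gluA D θD x y hD hsp hx
    (fun c c' hcc z h1 h2 c'' h3 => (hth c c' hcc z h1 h2 c'' h3).2)
  -- common vertices of two colours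
  have adj : ∀ c c' : Fin m, c ≠ c' → ∀ z, dg (D c) z ≠ 0 → dg (D c') z ≠ 0 →
      ((c' : ℕ) = c + 1 ∨ (c : ℕ) = c' + 1) ∧ dg (D c) z = 1 ∧ dg (D c') z = 1 := by
    have key : ∀ c c' : Fin m, c < c' → ∀ z, dg (D c) z ≠ 0 → dg (D c') z ≠ 0 →
        (c' : ℕ) = c + 1 ∧ dg (D c) z = 1 ∧ dg (D c') z = 1 := by
      intro c c' hcc z h1 h2
      obtain ⟨h3, h4⟩ := hsp c c' hcc z h1 h2
      obtain ⟨-, h5, h6, h7, h8⟩ := hx c c' h3
      rcases h4 with h4 | h4
      · rw [h4]
        exact ⟨h3, h5, h6⟩
      · rw [h4]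
        exact ⟨h3, h7, h8⟩
    intro c c' hcc z h1 h2
    rcases lt_or_gt_of_ne hcc with h3 | h3
    · obtain ⟨h4, h5, h6⟩ := key c c' h3 z h1 h2
      exact ⟨Or.inl h4, h5, h6⟩
    · obtain ⟨h4, h5, h6⟩ := key c' c h3 z h2 h1
      exact ⟨Or.inr h4, h6, h5⟩
  obtain ⟨f, fN, fS⟩ : ∃ f : Option (Fin m) → Sym2 V → ZMod 2,
      f none = ∑ c, D c ∧ ∀ c, f (some c) = L c := ⟨fun i => i.elim (∑ c, D c) L, rfl, fun _ => rfl⟩
  obtain ⟨θ, tN, tS⟩ : ∃ θ : Option (Fin m) → V → V,
      θ none = θ₀ ∧ ∀ c, θ (some c) = θL c := ⟨fun i => i.elim θ₀ θL, rfl, fun _ => rfl⟩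
  have hsum : ∑ c, (L c + D c) = ∑ i, f i := by
    rw [Fintype.sum_option, fN, Finset.sum_add_distrib, add_comm]
    congr 1
    exact Finset.sum_congr rfl fun c _ => (fS c).symm
  have hcard : m + 1 = Fintype.card (Option (Fin m)) := by
    rw [Fintype.card_option, Fintype.card_fin]
  have eS : ∀ c z, dg (f (some c)) z = 1 ↔ dg (D c) z = 1 := by
    intro c z
    rw [fS]
    exact hLD c z
  have h1 : ∀ x i, dg (f i) x = 1 → ∃ j, j ≠ i ∧ dg (f j) x = 1 := by
    intro z i hz
    rcases i with _ | c
    · rw [fN] at hz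
      obtain ⟨c, hc, -⟩ := Glue_one (hdg z) hz
      exact ⟨some c, by simp, (eS c z).2 hc⟩
    · have hz' := (eS c z).1 hz
      by_cases hcon : ∃ c', c' ≠ c ∧ dg (D c') z ≠ 0
      · obtain ⟨c', hc', hz2⟩ := hcon
        obtain ⟨-, -, h3⟩ := adj c c' (Ne.symm hc') z (by omega) hz2
        exact ⟨some c', fun h => hc' (Option.some.inj h), (eS c' z).2 h3⟩
      · push Not at hcon
        refine ⟨none, by simp, ?_⟩
        rw [fN]
        exact Glue_alone (hdg z) hz' hcon
  have none2 : ∀ z c c', dg (f none) z = 1 → dg (f (some c)) z = 1 → dg (f (some c')) z = 1 →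
      c = c' := by
    intro z c c' ha hb hc
    rw [fN] at ha
    obtain ⟨d, hd, hd'⟩ := Glue_one (hdg z) ha
    have hb' := (eS c z).1 hb
    have hc' := (eS c' z).1 hc
    have e1 : c = d := by
      by_contra hne
      rw [hd' c hne] at hb'
      exact absurd hb' (by norm_num)
    have e2 : c' = d := by
      by_contra hne
      rw [hd' c' hne] at hc'
      exact absurd hc' (by norm_num)
    rw [e1, e2]
  have h2 : ∀ x i j k, dg (f i) x = 1 → dg (f j) x = 1 → dg (f k) x = 1 →
      i = j ∨ j = k ∨ i = k := by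
    intro z i j k hi hj hk
    rcases i with _ | i <;> rcases j with _ | j <;> rcases k with _ | k
    · exact Or.inl rfl
    · exact Or.inl rfl
    · exact Or.inr (Or.inr rfl)
    · exact Or.inr (Or.inl (by rw [none2 z j k hi hj hk]))
    · exact Or.inr (Or.inl rfl)
    · exact Or.inr (Or.inr (by rw [none2 z i k hj hi hk]))
    · exact Or.inl (by rw [none2 z i j hk hi hj])
    · have hi' := (eS i z).1 hi
      have hj' := (eS j z).1 hj
      have hk' := (eS k z).1 hk
      by_contra hcon
      push Not at hcon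
      obtain ⟨n1, n2, n3⟩ := hcon
      have m1 : i ≠ j := fun h => n1 (by rw [h])
      have m2 : j ≠ k := fun h => n2 (by rw [h])
      have m3 : i ≠ k := fun h => n3 (by rw [h])
      have a1 := (adj i j m1 z (by omega) (by omega)).1
      have a2 := (adj j k m2 z (by omega) (by omega)).1
      have a3 := (adj i k m3 z (by omega) (by omega)).1
      omega
  have hLF : ∀ i, LF (f i) (θ i) := by
    intro i
    rcases i with _ | c
    · rw [fN, tN]
      exact h0
    · rw [fS, tS]
      exact hL c
  -- the classes are even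
  have evSS : ∀ c c' : Fin m, c < c' →
      Even (univ.filter fun z => dg (f (some c)) z = 1 ∧ dg (f (some c')) z = 1).card := by
    intro c c' hcc
    by_cases hadj : (c' : ℕ) = c + 1
    · obtain ⟨g1, g2, g3, g4, g5⟩ := hx c c' hadj
      have h3 : (univ.filter fun z => dg (f (some c)) z = 1 ∧ dg (f (some c')) z = 1) =
          {x c, y c} := by
        ext z
        rw [Finset.mem_filter, Finset.mem_insert, Finset.mem_singleton, eS, eS]
        constructor
        · rintro ⟨-, h4, h5⟩
          exact (hsp c c' hcc z (by omega) (by omega)).2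
        · rintro (rfl | rfl)
          · exact ⟨Finset.mem_univ _, g2, g3⟩
          · exact ⟨Finset.mem_univ _, g4, g5⟩
      rw [h3, Finset.card_pair g1]
      exact even_two
    · have h3 : (univ.filter fun z => dg (f (some c)) z = 1 ∧ dg (f (some c')) z = 1) = ∅ := by
        refine Finset.filter_eq_empty_iff.2 ?_
        intro z _
        rw [eS, eS]
        rintro ⟨h4, h5⟩
        exact hadj (hsp c c' hcc z (by omega) (by omega)).1
      rw [h3, Finset.card_empty]
      exact Even.zero
  have hsw : ∀ i j, (univ.filter fun z => dg (f i) z = 1 ∧ dg (f j) z = 1) =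
      univ.filter fun z => dg (f j) z = 1 ∧ dg (f i) z = 1 := by
    intro i j
    ext z
    simp only [Finset.mem_filter, Finset.mem_univ, true_and]
    exact and_comm
  have evSS' : ∀ c c' : Fin m, c ≠ c' →
      Even (univ.filter fun z => dg (f (some c)) z = 1 ∧ dg (f (some c')) z = 1).card := by
    intro c c' hcc
    rcases lt_or_gt_of_ne hcc with h3 | h3
    · exact evSS c c' h3
    · rw [hsw]
      exact evSS c' c h3
  have hE : ∀ i j, (univ.filter fun z => dg (f i) z = 1) ∩ (univ.filter fun z => dg (f j) z = 1) =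
      univ.filter fun z => dg (f i) z = 1 ∧ dg (f j) z = 1 := by
    intro i j
    rw [← Finset.filter_and]
  have evSN : ∀ c : Fin m,
      Even (univ.filter fun z => dg (f (some c)) z = 1 ∧ dg (f none) z = 1).card := by
    intro c
    rw [← hE]
    refine Glue_par (fun i => univ.filter fun z => dg (f i) z = 1) (some c) none (by simp) ?_ ?_
      (Glue_even (hLF (some c))) ?_
    · intro z hz
      obtain ⟨j, hj, hzj⟩ := h1 z (some c) (Finset.mem_filter.1 hz).2
      exact ⟨j, hj, Finset.mem_filter.2 ⟨Finset.mem_univ z, hzj⟩⟩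
    · intro z j l hz hzj hzl
      exact h2 z (some c) j l (Finset.mem_filter.1 hz).2 (Finset.mem_filter.1 hzj).2
        (Finset.mem_filter.1 hzl).2
    · intro j hj hj'
      rcases j with _ | c'
      · exact absurd rfl hj'
      · rw [hE]
        exact evSS' c c' fun h => hj (by rw [h])
  rw [hsum, hcard]
  refine crit f θ hLF h1 h2 ?_ ?_
  · intro i j hij
    rcases i with _ | c <;> rcases j with _ | c'
    · exact absurd rfl hij
    · rw [hsw]
      exact evSN c'
    · exact evSN c
    · exact evSS' c c' fun h => hij (by rw [h])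
  · intro i j k hji hki hj hk
    rcases i with _ | c
    · -- the paths of the sum of the `D c`
      have step : ∀ c c' : Fin m, (c' : ℕ) = c + 1 →
          (∃ z, dg (f none) z = 1 ∧ dg (f (some c)) z = 1 ∧ dg (f (some c')) (θ none z) = 1) ∧
          ∃ z, dg (f none) z = 1 ∧ dg (f (some c')) z = 1 ∧ dg (f (some c)) (θ none z) = 1 := by
        intro c c' hcc
        have hne : c ≠ c' := by
          rintro rfl
          omega
        obtain ⟨-, g2, g3, -, -⟩ := hx c c' hcc
        obtain ⟨w1, -, -⟩ := Glue_end (hD c) g2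
        obtain ⟨v1, -, -⟩ := Glue_end (hD c') g3
        have w0 : ∀ c'', c'' ≠ c → dg (D c'') (θD c (x c)) = 0 := fun c'' h =>
          (hth c c' hne (x c) (by omega) (by omega) c'' h).2
        have v0 : ∀ c'', c'' ≠ c' → dg (D c'') (θD c' (x c)) = 0 := fun c'' h =>
          (hth c' c (Ne.symm hne) (x c) (by omega) (by omega) c'' h).2
        have w2 := Glue_alone (hdg _) w1 w0
        have v2 := Glue_alone (hdg _) v1 v0
        have c1 : Con (∑ c, D c) (x c) (θD c (x c)) :=
          Con.mono (fun a b hab => hsup c a b hab) ((hD c).con _ g2.le)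
        have c2 : Con (∑ c, D c) (x c) (θD c' (x c)) :=
          Con.mono (fun a b hab => hsup c' a b hab) ((hD c').con _ g3.le)
        have c3 : Con (∑ c, D c) (θD c (x c)) (θD c' (x c)) := c1.symm'.trans c2
        have hvw : θD c' (x c) ≠ θD c (x c) := by
          intro h
          rw [h, w0 c' (Ne.symm hne)] at v1
          exact absurd v1 (by norm_num)
        rcases h0.uni _ _ w2.le v2.le c3 with h3 | h3
        · exact absurd h3 hvw
        · have h4 : θ₀ (θD c' (x c)) = θD c (x c) := by
            rw [h3]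
            exact h0.inv _ w2.le
          refine ⟨⟨θD c (x c), ?_, (eS _ _).2 w1, ?_⟩, θD c' (x c), ?_, (eS _ _).2 v1, ?_⟩
          · rw [fN]
            exact w2
          · rw [tN, ← h3]
            exact (eS _ _).2 v1
          · rw [fN]
            exact v2
          · rw [tN, h4]
            exact (eS _ _).2 w1
      have chain : ∀ n : ℕ, ∀ c c' : Fin m, (c' : ℕ) = c + n →
          Relation.ReflTransGen (fun j k => k ≠ none ∧ ∃ x, dg (f none) x = 1 ∧ dg (f j) x = 1 ∧
            dg (f k) (θ none x) = 1) (some c) (some c') ∧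
          Relation.ReflTransGen (fun j k => k ≠ none ∧ ∃ x, dg (f none) x = 1 ∧ dg (f j) x = 1 ∧
            dg (f k) (θ none x) = 1) (some c') (some c) := by
        intro n
        induction n with
        | zero =>
          intro c c' h
          have : c' = c := Fin.ext (by omega)
          rw [this]
          exact ⟨Relation.ReflTransGen.refl, Relation.ReflTransGen.refl⟩
        | succ n ih =>
          intro c c' h
          have hd : (c : ℕ) + n < m := by
            have := c'.isLt
            omega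
          obtain ⟨a1, a2⟩ := ih c ⟨c + n, hd⟩ rfl
          obtain ⟨b1, b2⟩ := step ⟨c + n, hd⟩ c' (by
            show (c' : ℕ) = c + n + 1
            omega)
          exact ⟨a1.tail ⟨by simp, b1⟩, Relation.ReflTransGen.head ⟨by simp, b2⟩ a2⟩
      rcases j with _ | c
      · exact absurd rfl hji
      rcases k with _ | c'
      · exact absurd rfl hki
      rcases le_total (c : ℕ) c' with h3 | h3
      · exact (chain (c' - c) c c' (by omega)).1
      · exact (chain (c - c') c' c (by omega)).2
    · -- the paths of `L c`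
      have step : ∀ c' : Fin m, c' ≠ c → (∃ z, dg (f (some c)) z = 1 ∧ dg (f (some c')) z = 1) →
          (∃ z, dg (f (some c)) z = 1 ∧ dg (f (some c')) z = 1 ∧
            dg (f none) (θ (some c) z) = 1) ∧
          ∃ z, dg (f (some c)) z = 1 ∧ dg (f none) z = 1 ∧
            dg (f (some c')) (θ (some c) z) = 1 := by
        rintro c' hc' ⟨z, hz, hz'⟩
        have hz1 := (eS _ _).1 hz
        have hz2 := (eS _ _).1 hz'
        obtain ⟨g1, g2, -⟩ := Glue_end (hLF (some c)) hz
        have g0 : ∀ c'', c'' ≠ c → dg (D c'') (θ (some c) z) = 0 := by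
          intro c'' h
          rw [tS]
          exact (hth c c' (Ne.symm hc') z (by omega) (by omega) c'' h).1
        have g3 : dg (f none) (θ (some c) z) = 1 := by
          rw [fN]
          exact Glue_alone (hdg _) ((eS _ _).1 g1) g0
        refine ⟨⟨z, hz, hz', g3⟩, θ (some c) z, g1, g3, ?_⟩
        rw [g2]
        exact hz'
      have toN : ∀ j, j ≠ some c → (∃ z, dg (f (some c)) z = 1 ∧ dg (f j) z = 1) →
          Relation.ReflTransGen (fun j k => k ≠ some c ∧ ∃ x, dg (f (some c)) x = 1 ∧
            dg (f j) x = 1 ∧ dg (f k) (θ (some c) x) = 1) j none ∧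
          Relation.ReflTransGen (fun j k => k ≠ some c ∧ ∃ x, dg (f (some c)) x = 1 ∧
            dg (f j) x = 1 ∧ dg (f k) (θ (some c) x) = 1) none j := by
        intro j hjc hz
        rcases j with _ | c'
        · exact ⟨Relation.ReflTransGen.refl, Relation.ReflTransGen.refl⟩
        · obtain ⟨a1, a2⟩ := step c' (fun h => hjc (by rw [h])) hz
          exact ⟨Relation.ReflTransGen.single ⟨by simp, a1⟩,
            Relation.ReflTransGen.single ⟨hjc, a2⟩⟩
      exact (toN j hji hj).1.trans (toN k hki hk).2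

end Pool.Agent.H.MP_5bc4af.L4
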