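import Pool.Agent.H.MP_5bc4af_co.helper5.LLL

/-!
# Independent transversals by the local lemma

`d = 0`: there is no pair `e ∈ A w`, `f ∈ A w'` with `R e f`; take any `g w ∈ A w`.
`0 < d`: choose injections `ι w : Fin M → E` into `A w` (`Finset.exists_subset_card_eq` and
`Finset.equivFin`, or `(A w).equivFin.symm ∘ Fin.castLE`). Local lemma
(`local_lemma`, helper5/LLL.lean) on the space `W → Fin M`; index type of the events
`I = {(w, a, w', a') // w ≠ w' ∧ R (ι w a) (ι w' a')}`, `A i ω : ω w = a ∧ ω w' = a'`,
`N i = {w, w'}`. The number of `ω` with `ω w = a`, `ω w' = a'` is `M ^ (card W - 2)`, so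
`p = 1 / M ^ 2` (`helper5/LLL.lean` or `helper5/Color.lean` has such a count; or
the filter is a `Fintype.piFinset`). An event `j` with
`¬ Disjoint (N i) (N j)` has `w` or `w'` of `i` as first or second index. For a fixed first index `w₀` the
events are determined by `a` and by `f = ι w' a'` (`w'` is determined by `f` since the `A w'` are disjoint),
where `f` is one of at most `d` elements: at most `M * d`; the same for a fixed second index (`hs`). So at most
`4 * M * d` events and `4 * (1 / M ^ 2) * (4 * M * d) = 16 * d / M ≤ 1`.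
-/

namespace Pool.Agent.H.MP_5bc4af.L4

open Finset Pool.Agent.H.MP_5bc4af.H5

private theorem OrdL_count {W : Type*} [Fintype W] [DecidableEq W] {M : ℕ} {w w' : W}
    (hw : w ≠ w') (a a' : Fin M) :
    (univ.filter fun ω : W → Fin M => ω w = a ∧ ω w' = a').card * (M * M) ≤
      Fintype.card (W → Fin M) := by
  classical
  have h1 : ((univ.filter fun ω : W → Fin M => ω w = a ∧ ω w' = a') ×ˢ
      (univ : Finset (Fin M × Fin M))).card =
      (univ.filter fun ω : W → Fin M => ω w = a ∧ ω w' = a').card * (M * M) := by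
    rw [card_product, card_univ, Fintype.card_prod, Fintype.card_fin]
  rw [← h1, ← card_univ (α := W → Fin M)]
  refine card_le_card_of_injOn
    (fun x => Function.update (Function.update x.1 w x.2.1) w' x.2.2)
    (fun _ _ => mem_coe.2 (mem_univ _)) ?_
  rintro ⟨ω, b, b'⟩ hx ⟨η, c, c'⟩ hy hxy
  simp only [coe_product, coe_filter, mem_univ, true_and, coe_univ, Set.mem_prod, Set.mem_univ,
    and_true] at hx hy
  obtain ⟨hx1, hx2⟩ : ω w = a ∧ ω w' = a' := hx
  obtain ⟨hy1, hy2⟩ : η w = a ∧ η w' = a' := hy
  simp only at hxy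
  have e1 := congrFun hxy w
  have e2 := congrFun hxy w'
  rw [Function.update_of_ne hw, Function.update_of_ne hw, Function.update_self,
    Function.update_self] at e1
  rw [Function.update_self, Function.update_self] at e2
  have e3 : ω = η := by
    funext v
    by_cases h1 : v = w
    · rw [h1, hx1, hy1]
    · by_cases h2 : v = w'
      · rw [h2, hx2, hy2]
      · have e4 := congrFun hxy v
        rw [Function.update_of_ne h2, Function.update_of_ne h1, Function.update_of_ne h2,
          Function.update_of_ne h1] at e4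
        exact e4
  rw [e1, e2, e3]

theorem transv {W E : Type*} [Fintype W] [DecidableEq W] [Fintype E] [DecidableEq E]
    (A : W → Finset E) (R : E → E → Prop) [DecidableRel R] (hs : ∀ e f, R e f → R f e) (M d : ℕ)
    (hM : 1 ≤ M) (hA : ∀ w, M ≤ (A w).card) (hdj : ∀ w w', w ≠ w' → Disjoint (A w) (A w'))
    (hd : ∀ e, (univ.filter fun f => R e f).card ≤ d) (h : 16 * d ≤ M) :
    ∃ g : W → E, (∀ w, g w ∈ A w) ∧ ∀ w w', w ≠ w' → ¬ R (g w) (g w') := by
  classical
  -- the injections
  have hι : ∀ w, ∃ ι : Fin M → E, Function.Injective ι ∧ ∀ a, ι a ∈ A w := by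
    intro w
    refine ⟨fun a => ((A w).equivFin.symm (Fin.castLE (hA w) a) : E), ?_, fun a => ?_⟩
    · intro a b hab
      have h1 := (A w).equivFin.symm.injective (Subtype.ext hab)
      exact Fin.castLE_injective (hA w) h1
    · exact ((A w).equivFin.symm (Fin.castLE (hA w) a)).2
  choose ι hιi hιA using hι
  rcases Nat.eq_zero_or_pos d with hd0 | hd0
  · refine ⟨fun w => ι w ⟨0, hM⟩, fun w => hιA w _, fun w w' _ hR => ?_⟩
    have h1 := hd (ι w ⟨0, hM⟩)
    rw [hd0, Nat.le_zero, card_eq_zero] at h1
    have h2 : ι w' ⟨0, hM⟩ ∈ univ.filter fun f => R (ι w ⟨0, hM⟩) f := by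
      rw [mem_filter]
      exact ⟨mem_univ _, hR⟩
    rw [h1] at h2
    exact absurd h2 (notMem_empty _)
  · haveI : Nonempty (Fin M) := ⟨⟨0, hM⟩⟩
    -- which set an element belongs to
    have hdet : ∀ w w' a a', ι w a = ι w' a' → w = w' ∧ HEq a a' := by
      intro w w' a a' hh
      have h1 : w = w' := by
        by_contra hne
        exact (Finset.disjoint_left.1 (hdj w w' hne)) (hιA w a) (hh ▸ hιA w' a')
      subst h1
      exact ⟨rfl, heq_of_eq (hιi w hh)⟩
    let I := {x : (W × Fin M) × (W × Fin M) // x.1.1 ≠ x.2.1 ∧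
      R (ι x.1.1 x.1.2) (ι x.2.1 x.2.2)}
    -- the events with a given first index
    have hJ1 : ∀ w₀ : W, (univ.filter fun j : I => j.1.1.1 = w₀).card ≤ M * d := by
      intro w₀
      have h1 : (univ.filter fun j : I => j.1.1.1 = w₀).card ≤
          ((univ : Finset (Fin M)).sigma fun a => univ.filter fun f => R (ι w₀ a) f).card := by
        refine card_le_card_of_injOn
          (fun j => (⟨j.1.1.2, ι j.1.2.1 j.1.2.2⟩ : (_ : Fin M) × E)) ?_ ?_
        · rintro ⟨⟨⟨w, a⟩, w', a'⟩, hj, hR⟩ hm
          simp only [coe_filter, mem_univ, true_and, Set.mem_ofPred_eq] at hm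
          subst hm
          simp only [coe_sigma, Set.mem_sigma_iff, mem_coe, mem_univ, mem_filter, true_and]
          exact hR
        · rintro ⟨⟨⟨w, a⟩, w', a'⟩, hj, hR⟩ hm ⟨⟨⟨v, b⟩, v', b'⟩, hj2, hR2⟩ hm2 hh
          simp only [coe_filter, mem_univ, true_and, Set.mem_ofPred_eq] at hm hm2
          simp only [Sigma.mk.injEq, heq_eq_eq] at hh
          obtain ⟨h2, h3⟩ := hh
          obtain ⟨h4, h5⟩ := hdet _ _ _ _ h3
          have h5' := eq_of_heq h5
          subst hm hm2 h2 h4 h5'
          rfl
      refine h1.trans ?_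
      rw [card_sigma]
      refine (sum_le_card_nsmul _ _ d fun a _ => hd _).trans ?_
      rw [card_univ, Fintype.card_fin, smul_eq_mul]
    have hJ2 : ∀ w₀ : W, (univ.filter fun j : I => j.1.2.1 = w₀).card ≤ M * d := by
      intro w₀
      have h1 : (univ.filter fun j : I => j.1.2.1 = w₀).card ≤
          ((univ : Finset (Fin M)).sigma fun a => univ.filter fun f => R (ι w₀ a) f).card := by
        refine card_le_card_of_injOn
          (fun j => (⟨j.1.2.2, ι j.1.1.1 j.1.1.2⟩ : (_ : Fin M) × E)) ?_ ?_
        · rintro ⟨⟨⟨w, a⟩, w', a'⟩, hj, hR⟩ hm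
          simp only [coe_filter, mem_univ, true_and, Set.mem_ofPred_eq] at hm
          subst hm
          simp only [coe_sigma, Set.mem_sigma_iff, mem_coe, mem_univ, mem_filter, true_and]
          exact hs _ _ hR
        · rintro ⟨⟨⟨w, a⟩, w', a'⟩, hj, hR⟩ hm ⟨⟨⟨v, b⟩, v', b'⟩, hj2, hR2⟩ hm2 hh
          simp only [coe_filter, mem_univ, true_and, Set.mem_ofPred_eq] at hm hm2
          simp only [Sigma.mk.injEq, heq_eq_eq] at hh
          obtain ⟨h2, h3⟩ := hh
          obtain ⟨h4, h5⟩ := hdet _ _ _ _ h3
          have h5' := eq_of_heq h5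
          subst hm hm2 h2 h4 h5'
          rfl
      refine h1.trans ?_
      rw [card_sigma]
      refine (sum_le_card_nsmul _ _ d fun a _ => hd _).trans ?_
      rw [card_univ, Fintype.card_fin, smul_eq_mul]
    have hMr : (0 : ℝ) < M := by exact_mod_cast hM
    obtain ⟨ω, hω⟩ := local_lemma (V := W) (K := Fin M) (I := I)
      (fun i ω => ω i.1.1.1 = i.1.1.2 ∧ ω i.1.2.1 = i.1.2.2) (fun i => {i.1.1.1, i.1.2.1})
      (by
        intro i ω ω' he hi
        refine ⟨?_, ?_⟩
        · rw [← he _ (by simp)]; exact hi.1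
        · rw [← he _ (by simp)]; exact hi.2)
      (1 / (M : ℝ) ^ 2) (by positivity) (4 * (M * d)) (by
        have : 0 < M * d := Nat.mul_pos hM hd0
        omega)
      (by
        intro i
        have h1 := OrdL_count i.2.1 i.1.1.2 i.1.2.2
        have h2 : (((univ.filter fun ω : W → Fin M => ω i.1.1.1 = i.1.1.2 ∧
            ω i.1.2.1 = i.1.2.2).card * (M * M) : ℕ) : ℝ) ≤ (Fintype.card (W → Fin M) : ℝ) := by
          exact_mod_cast h1
        push_cast at h2
        rw [one_div, inv_mul_eq_div, le_div_iff₀ (by positivity)]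
        have h3 : (M : ℝ) ^ 2 = M * M := by ring
        rw [h3]
        exact h2)
      (by
        intro i
        have hsub : (univ.filter fun j : I => ¬ Disjoint ({i.1.1.1, i.1.2.1} : Finset W)
            {j.1.1.1, j.1.2.1}) ⊆
            (univ.filter fun j : I => j.1.1.1 = i.1.1.1) ∪
            (univ.filter fun j : I => j.1.1.1 = i.1.2.1) ∪
            ((univ.filter fun j : I => j.1.2.1 = i.1.1.1) ∪
            (univ.filter fun j : I => j.1.2.1 = i.1.2.1)) := by
          intro j hj
          rw [mem_filter] at hj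
          obtain ⟨v, hv1, hv2⟩ := Finset.not_disjoint_iff.1 hj.2
          rw [mem_insert, mem_singleton] at hv1 hv2
          simp only [mem_union, mem_filter, mem_univ, true_and]
          rcases hv1 with h1 | h1 <;> rcases hv2 with h2 | h2
          · exact Or.inl (Or.inl (h2.symm.trans h1))
          · exact Or.inr (Or.inl (h2.symm.trans h1))
          · exact Or.inl (Or.inr (h2.symm.trans h1))
          · exact Or.inr (Or.inr (h2.symm.trans h1))
        refine (card_le_card hsub).trans ?_
        have h1 := hJ1 i.1.1.1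
        have h2 := hJ1 i.1.2.1
        have h3 := hJ2 i.1.1.1
        have h4 := hJ2 i.1.2.1
        have h5 := card_union_le ((univ.filter fun j : I => j.1.1.1 = i.1.1.1) ∪
            (univ.filter fun j : I => j.1.1.1 = i.1.2.1))
            ((univ.filter fun j : I => j.1.2.1 = i.1.1.1) ∪
            (univ.filter fun j : I => j.1.2.1 = i.1.2.1))
        have h6 := card_union_le (univ.filter fun j : I => j.1.1.1 = i.1.1.1)
            (univ.filter fun j : I => j.1.1.1 = i.1.2.1)
        have h7 := card_union_le (univ.filter fun j : I => j.1.2.1 = i.1.1.1)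
            (univ.filter fun j : I => j.1.2.1 = i.1.2.1)
        omega)
      (by
        have h1 : (16 * d : ℝ) ≤ M := by exact_mod_cast h
        push_cast
        have h2 : 4 * (1 / (M : ℝ) ^ 2) * (4 * (M * d)) = 16 * d / M := by
          field_simp
          ring
        rw [h2, div_le_one hMr]
        exact h1)
    refine ⟨fun w => ι w (ω w), fun w => hιA w _, fun w w' hw hR => ?_⟩
    exact hω ⟨((w, ω w), (w', ω w')), hw, hR⟩ ⟨rfl, rfl⟩

end Pool.Agent.H.MP_5bc4af.L4
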