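import Pool.Agent.H.MP_5bc4af_co.L4.Def

/-!
# The crossings, one after the other

`σ c ≠ 1` and `Lg (80 m)`: the support of `σ c` has at least `80 m` elements. Prove by induction on `n`
(number of crossings chosen, in the order `(0, true), (0, false), (1, true), …`; or prove for `n ≤ m`
the statement `Spc n σ s u F` with the bound `F.card ≤ 8 * n` for `80 m` and `n ≤ m`, adding the two
crossings `(n - 1, true)`, `(n - 1, false)` in the step from `n` to `n + 1`, with
`Function.update`). One crossing `(j, b)` outside a set `F` of at most `8 m` vertices: take `s` in the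
support of `σ j` with `s ∉ F`, `σ j s ∉ F`, `σ (j + 1) s ∉ F` (at most `3 * F.card ≤ 24 m` bad ones). If
`σ (j + 1) s ≠ s` let `u = s` (`d1`: `s` is moved; `d2`: same; `d3`: `σ (j + 1) s = σ j s` contradicts
`Dj`). Otherwise take `u` in the support of `σ (j + 1)` with `u, σ (j + 1) u ∉ F ∪ {s, σ j s}`. Then add the
block (at most four vertices) to `F`.
-/

namespace Pool.Agent.H.MP_5bc4af.L4

open Finset Pool.Agent.H.MP_5bc4af.H5 Pool.Agent.H.MP_5bc4af.L3

variable {V : Type*} [Fintype V] [DecidableEq V]

theorem card_supp {σ : Equiv.Perm V} {g : ℕ} (hg : Lg g σ) {x : V} (hx : σ x ≠ x) :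
    g ≤ (univ.filter fun y => σ y ≠ y ∧ σ.SameCycle x y).card := by
  have h1 : (range g).card ≤ (univ.filter fun y => σ y ≠ y ∧ σ.SameCycle x y).card := by
    refine Finset.card_le_card_of_injOn (fun i => (σ ^ i) x) ?_ ?_
    · intro i _
      refine mem_coe.2 (mem_filter.2 ⟨mem_univ _, ?_, ⟨(i : ℤ), by rw [zpow_natCast]⟩⟩)
      intro h
      apply hx
      have h2 : (σ ^ i) (σ x) = (σ ^ i) x := by
        calc (σ ^ i) (σ x) = (σ ^ i * σ) x := rfl
          _ = (σ * σ ^ i) x := by rw [(Commute.refl σ).pow_left i]
          _ = (σ ^ i) x := h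
      exact (σ ^ i).injective h2
    · have key : ∀ i j : ℕ, i < g → j < g → i < j → (σ ^ i) x ≠ (σ ^ j) x := by
        intro i j hi hj hij h
        refine hg x (j - i) hx (by omega) (by omega) ?_
        apply (σ ^ i).injective
        have h2 : j = i + (j - i) := by omega
        calc (σ ^ i) ((σ ^ (j - i)) x) = (σ ^ i * σ ^ (j - i)) x := rfl
          _ = (σ ^ j) x := by rw [← pow_add, ← h2]
          _ = (σ ^ i) x := h.symm
      intro i hi j hj hij
      have hi' := mem_range.1 (mem_coe.1 hi)
      have hj' := mem_range.1 (mem_coe.1 hj)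
      rcases lt_trichotomy i j with h | h | h
      · exact absurd hij (key i j hi' hj' h)
      · exact h
      · exact absurd hij.symm (key j i hj' hi' h)
  rwa [card_range] at h1

/-- a point of the support outside a small set, with images outside of it -/
private theorem SpcE_pick {m : ℕ} {σ : Equiv.Perm V} (h1 : σ ≠ 1) (hg : Lg (80 * m) σ)
    (B : Finset V) (hB : B.card < 80 * m) : ∃ s, σ s ≠ s ∧ s ∉ B := by
  obtain ⟨x, hx⟩ : ∃ x, σ x ≠ x := by
    by_contra h
    push Not at h
    exact h1 (Equiv.ext h)
  have h2 := card_supp hg hx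
  by_contra hcon
  push Not at hcon
  have h3 : (univ.filter fun y => σ y ≠ y ∧ σ.SameCycle x y) ⊆ B := fun y hy =>
    hcon y (mem_filter.1 hy).2.1
  have h4 := card_le_card h3
  omega

/-- one crossing -/
private theorem SpcE_one {m : ℕ} {σ τ : Equiv.Perm V} (hm : 1 ≤ m) (hd : Dj σ τ) (h1 : σ ≠ 1)
    (h1' : τ ≠ 1) (hg : Lg (80 * m) σ) (hg' : Lg (80 * m) τ) (F : Finset V)
    (hF : F.card ≤ 8 * m) :
    ∃ s u : V, σ s ≠ s ∧ τ u ≠ u ∧ (u = s ∨ τ s = s) ∧ u ≠ σ s ∧ τ u ≠ s ∧ τ u ≠ σ s ∧
      Disjoint ({s, σ s, u, τ u} : Finset V) F := by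
  have hc1 : (F.image σ.symm).card ≤ F.card := card_image_le
  have hc2 : (F.image τ.symm).card ≤ F.card := card_image_le
  obtain ⟨s, hs, hsB⟩ := SpcE_pick h1 hg (F ∪ F.image σ.symm ∪ F.image τ.symm) (by
    have h2 := card_union_le (F ∪ F.image σ.symm) (F.image τ.symm)
    have h3 := card_union_le F (F.image σ.symm)
    omega)
  rw [mem_union, mem_union, not_or, not_or, mem_image, mem_image] at hsB
  obtain ⟨⟨hs1, hs2⟩, hs3⟩ := hsB
  have hσs : σ s ∉ F := fun h => hs2 ⟨σ s, h, σ.symm_apply_apply s⟩
  have hτs : τ s ∉ F := fun h => hs3 ⟨τ s, h, τ.symm_apply_apply s⟩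
  by_cases hf : τ s = s
  · -- `u` in the support of `τ`
    set G : Finset V := F ∪ {s, σ s} with hG
    have hGc : G.card ≤ 8 * m + 2 := by
      have h2 := card_union_le F ({s, σ s} : Finset V)
      have h3 : ({s, σ s} : Finset V).card ≤ 2 := card_le_two
      rw [← hG] at h2
      omega
    have hc3 : (G.image τ.symm).card ≤ G.card := card_image_le
    obtain ⟨u, hu, huB⟩ := SpcE_pick h1' hg' (G ∪ G.image τ.symm) (by
      have h2 := card_union_le G (G.image τ.symm)
      omega)
    rw [mem_union, not_or, mem_image] at huB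
    obtain ⟨hu1, hu2⟩ := huB
    have hτu : τ u ∉ G := fun h => hu2 ⟨τ u, h, τ.symm_apply_apply u⟩
    rw [hG, mem_union, mem_insert, mem_singleton, not_or, not_or] at hu1 hτu
    refine ⟨s, u, hs, hu, Or.inr hf, hu1.2.2, hτu.2.1, hτu.2.2, ?_⟩
    rw [Finset.disjoint_left]
    intro y hy
    rw [mem_insert, mem_insert, mem_insert, mem_singleton] at hy
    rcases hy with rfl | rfl | rfl | rfl
    · exact hs1
    · exact hσs
    · exact hu1.1
    · exact hτu.1
  · refine ⟨s, s, hs, hf, Or.inl rfl, fun h => hs h.symm, hf, ?_, ?_⟩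
    · intro h
      refine hd s s hs hf ?_
      rw [h]
    · rw [Finset.disjoint_left]
      intro y hy
      rw [mem_insert, mem_insert, mem_insert, mem_singleton] at hy
      rcases hy with rfl | rfl | rfl | rfl
      · exact hs1
      · exact hσs
      · exact hs1
      · exact hτs

/-- the crossings `(j, b)` with `j < n` -/
private structure SpcE_S (m n : ℕ) (σ : ℕ → Equiv.Perm V) (s u : ℕ → Bool → V) (F : Finset V) :
    Prop where
  card : F.card ≤ 8 * n
  sm : ∀ j b, j < n → j + 1 < m → σ j (s j b) ≠ s j b
  um : ∀ j b, j < n → j + 1 < m → σ (j + 1) (u j b) ≠ u j b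
  us : ∀ j b, j < n → j + 1 < m → u j b = s j b ∨ σ (j + 1) (s j b) = s j b
  sub : ∀ j b, j < n → j + 1 < m → blk σ s u j b ⊆ F
  d1 : ∀ j b, j < n → j + 1 < m → u j b ≠ σ j (s j b)
  d2 : ∀ j b, j < n → j + 1 < m → σ (j + 1) (u j b) ≠ s j b
  d3 : ∀ j b, j < n → j + 1 < m → σ (j + 1) (u j b) ≠ σ j (s j b)
  dj : ∀ j b j' b', j < n → j' < n → j + 1 < m → j' + 1 < m → (j, b) ≠ (j', b') →
    Disjoint (blk σ s u j b) (blk σ s u j' b')

theorem spcE {m : ℕ} (hm : 1 ≤ m) (σ : ℕ → Equiv.Perm V)
    (hd : ∀ c c', c < m → c' < m → c ≠ c' → Dj (σ c) (σ c'))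
    (hne : ∀ c, c < m → σ c ≠ 1) (hg : ∀ c, c < m → Lg (80 * m) (σ c)) :
    ∃ (s u : ℕ → Bool → V) (F : Finset V), Spc m σ s u F := by
  have key : ∀ n, n ≤ m → ∃ (s u : ℕ → Bool → V) (F : Finset V), SpcE_S m n σ s u F := by
    intro n
    induction n with
    | zero =>
      intro _
      obtain ⟨x, -, -⟩ := SpcE_pick (hne 0 hm) (hg 0 hm) ∅ (by rw [card_empty]; omega)
      exact ⟨fun _ _ => x, fun _ _ => x, ∅, by simp, fun j b hj => absurd hj (by omega),
        fun j b hj => absurd hj (by omega), fun j b hj => absurd hj (by omega),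
        fun j b hj => absurd hj (by omega), fun j b hj => absurd hj (by omega),
        fun j b hj => absurd hj (by omega), fun j b hj => absurd hj (by omega),
        fun j b j' b' hj => absurd hj (by omega)⟩
    | succ n ih =>
      intro hn
      obtain ⟨s, u, F, hS⟩ := ih (by omega)
      by_cases hnm : n + 1 < m
      swap
      · have hlt : ∀ j, j < n + 1 → j + 1 < m → j < n := fun j _ h => by omega
        exact ⟨s, u, F, hS.card.trans (by omega), fun j b h1 h2 => hS.sm j b (hlt j h1 h2) h2,
          fun j b h1 h2 => hS.um j b (hlt j h1 h2) h2, fun j b h1 h2 => hS.us j b (hlt j h1 h2) h2,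
          fun j b h1 h2 => hS.sub j b (hlt j h1 h2) h2, fun j b h1 h2 => hS.d1 j b (hlt j h1 h2) h2,
          fun j b h1 h2 => hS.d2 j b (hlt j h1 h2) h2, fun j b h1 h2 => hS.d3 j b (hlt j h1 h2) h2,
          fun j b j' b' h1 h1' h2 h2' => hS.dj j b j' b' (hlt j h1 h2) (hlt j' h1' h2') h2 h2'⟩
      have hD : Dj (σ n) (σ (n + 1)) := hd n (n + 1) (by omega) hnm (by omega)
      have hFc := hS.card
      obtain ⟨s₁, u₁, a1, a2, a3, a4, a5, a6, a7⟩ := SpcE_one hm hD (hne n (by omega))
        (hne _ hnm) (hg n (by omega)) (hg _ hnm) F (by omega)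
      set B₁ : Finset V := {s₁, σ n s₁, u₁, σ (n + 1) u₁} with hB₁
      have hB₁c : B₁.card ≤ 4 := card_le_four
      obtain ⟨s₂, u₂, b1, b2, b3, b4, b5, b6, b7⟩ := SpcE_one hm hD (hne n (by omega))
        (hne _ hnm) (hg n (by omega)) (hg _ hnm) (F ∪ B₁) (by
          have := card_union_le F B₁
          omega)
      set B₂ : Finset V := {s₂, σ n s₂, u₂, σ (n + 1) u₂} with hB₂
      have hB₂c : B₂.card ≤ 4 := card_le_four
      rw [disjoint_union_right] at b7
      let s' : ℕ → Bool → V := fun j b => if j = n then (if b then s₁ else s₂) else s j b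
      let u' : ℕ → Bool → V := fun j b => if j = n then (if b then u₁ else u₂) else u j b
      have es : ∀ j b, j ≠ n → s' j b = s j b := fun j b h => if_neg h
      have eu : ∀ j b, j ≠ n → u' j b = u j b := fun j b h => if_neg h
      have es1 : s' n true = s₁ := by simp [s']
      have es2 : s' n false = s₂ := by simp [s']
      have eu1 : u' n true = u₁ := by simp [u']
      have eu2 : u' n false = u₂ := by simp [u']
      have eb : ∀ j b, j ≠ n → blk σ s' u' j b = blk σ s u j b := fun j b h => by
        unfold blk
        rw [es j b h, eu j b h]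
      have eb1 : blk σ s' u' n true = B₁ := by
        unfold blk
        rw [es1, eu1]
      have eb2 : blk σ s' u' n false = B₂ := by
        unfold blk
        rw [es2, eu2]
      have hcase : ∀ j, j < n + 1 → j ≠ n → j < n := fun j h h' => by omega
      have hdF : ∀ b, Disjoint (blk σ s' u' n b) F := by
        intro b
        cases b
        · rw [eb2]
          exact b7.1
        · rw [eb1]
          exact a7
      refine ⟨s', u', F ∪ B₁ ∪ B₂, ?_, ?_, ?_, ?_, ?_, ?_, ?_, ?_, ?_⟩
      · have h2 := card_union_le (F ∪ B₁) B₂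
        have h3 := card_union_le F B₁
        omega
      · intro j b hj hj'
        by_cases h : j = n
        · subst h
          cases b
          · rw [es2]; exact b1
          · rw [es1]; exact a1
        · rw [es j b h]
          exact hS.sm j b (hcase j hj h) hj'
      · intro j b hj hj'
        by_cases h : j = n
        · subst h
          cases b
          · rw [eu2]; exact b2
          · rw [eu1]; exact a2
        · rw [eu j b h]
          exact hS.um j b (hcase j hj h) hj'
      · intro j b hj hj'
        by_cases h : j = n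
        · subst h
          cases b
          · rw [eu2, es2]; exact b3
          · rw [eu1, es1]; exact a3
        · rw [eu j b h, es j b h]
          exact hS.us j b (hcase j hj h) hj'
      · intro j b hj hj'
        by_cases h : j = n
        · subst h
          cases b
          · rw [eb2]; exact subset_union_right
          · rw [eb1]; exact subset_union_right.trans subset_union_left
        · rw [eb j b h]
          exact (hS.sub j b (hcase j hj h) hj').trans (subset_union_left.trans subset_union_left)
      · intro j b hj hj'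
        by_cases h : j = n
        · subst h
          cases b
          · rw [eu2, es2]; exact b4
          · rw [eu1, es1]; exact a4
        · rw [eu j b h, es j b h]
          exact hS.d1 j b (hcase j hj h) hj'
      · intro j b hj hj'
        by_cases h : j = n
        · subst h
          cases b
          · rw [eu2, es2]; exact b5
          · rw [eu1, es1]; exact a5
        · rw [eu j b h, es j b h]
          exact hS.d2 j b (hcase j hj h) hj'
      · intro j b hj hj'
        by_cases h : j = n
        · subst h
          cases b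
          · rw [eu2, es2]; exact b6
          · rw [eu1, es1]; exact a6
        · rw [eu j b h, es j b h]
          exact hS.d3 j b (hcase j hj h) hj'
      · intro j b j' b' hj hj1 hj' hj1' hne'
        by_cases h : j = n
        · by_cases h' : j' = n
          · subst h
            subst h'
            cases b <;> cases b'
            · exact absurd rfl hne'
            · rw [eb1, eb2]; exact b7.2
            · rw [eb1, eb2]; exact b7.2.symm
            · exact absurd rfl hne'
          · subst h
            rw [eb j' b' h']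
            exact (hdF b).mono_right (hS.sub j' b' (hcase j' hj1 h') hj1')
        · by_cases h' : j' = n
          · subst h'
            rw [eb j b h]
            exact ((hdF b').mono_right (hS.sub j b (hcase j hj h) hj')).symm
          · rw [eb j b h, eb j' b' h']
            exact hS.dj j b j' b' (hcase j hj h) (hcase j' hj1 h') hj' hj1' hne'
  obtain ⟨s, u, F, hS⟩ := key m le_rfl
  exact ⟨s, u, F, hS.card, fun j b h => hS.sm j b (by omega) h, fun j b h => hS.um j b (by omega) h,
    fun j b h => hS.us j b (by omega) h, fun j b h => hS.sub j b (by omega) h,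
    fun j b h => hS.d1 j b (by omega) h, fun j b h => hS.d2 j b (by omega) h,
    fun j b h => hS.d3 j b (by omega) h,
    fun j b j' b' h h' => hS.dj j b j' b' (by omega) (by omega) h h'⟩

end Pool.Agent.H.MP_5bc4af.L4
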