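import Pool.Agent.H.MP_5bc4af_co.L4.Def
import Pool.Agent.H.MP_5bc4af_co.L4.OrdL
import Pool.Agent.H.MP_5bc4af_co.L4.SpcE

/-!
# The ordinary arcs

`m = 0`: `O c = ∅`. Else `transv` for `E = Fin m × V`,
`R (c, t) (c', t') : t = t' ∨ t = σ c' t' ∨ σ c t = t' ∨ σ c t = σ c' t'` (the arcs with tails `t`, `t'` of
`σ c`, `σ c'` have a common vertex), `W` = the pairs `(c, κ)`, `c : Fin m`, `κ ∈ (σ c).cycleFactorsFinset`,
`A (c, κ)` = the `(c, t)` with `t ∈ κ.support`, `t ∉ F`, `σ c t ∉ F`; at least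
`80 m - 2 * 8 m = 64 m` elements (`card_supp` of SpcE.lean), so `M = 64 * m`. For fixed `e = (c, t)` and fixed `c'`
there are at most four `t'` with `R (c, t) (c', t')`: `d = 4 * m`, `16 * d = M`. `O c` = the `t` with
`g w = (c, t)` for some `w`.
-/

namespace Pool.Agent.H.MP_5bc4af.L4

open Finset Pool.Agent.H.MP_5bc4af.H5 Pool.Agent.H.MP_5bc4af.L3

variable {V : Type*} [Fintype V] [DecidableEq V]

/-- two arcs have a common vertex -/
private def RR {m : ℕ} (σ : ℕ → Equiv.Perm V) (e f : Fin m × V) : Prop :=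
  e.2 = f.2 ∨ e.2 = σ f.1 f.2 ∨ σ e.1 e.2 = f.2 ∨ σ e.1 e.2 = σ f.1 f.2

/-- the admissible arcs of a cycle -/
private def AA {m : ℕ} (σ : ℕ → Equiv.Perm V) (F : Finset V)
    (w : Σ c : Fin m, {κ // κ ∈ (σ c).cycleFactorsFinset}) : Finset (Fin m × V) :=
  univ.filter fun e => e.1 = w.1 ∧ e.2 ∈ (w.2 : Equiv.Perm V).support ∧ e.2 ∉ F ∧ σ w.1 e.2 ∉ F

omit [Fintype V] [DecidableEq V] in
private theorem RR_symm {m : ℕ} (σ : ℕ → Equiv.Perm V) (e f : Fin m × V) (h : RR σ e f) :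
    RR σ f e := by
  rcases h with h | h | h | h
  · exact Or.inl h.symm
  · exact Or.inr (Or.inr (Or.inl h.symm))
  · exact Or.inr (Or.inl h.symm)
  · exact Or.inr (Or.inr (Or.inr h.symm))

private theorem card_RR {m : ℕ} (σ : ℕ → Equiv.Perm V) (e : Fin m × V)
    [DecidablePred fun f => RR σ e f] : (univ.filter fun f => RR σ e f).card ≤ 4 * m := by
  have h1 : (univ.filter fun f => RR σ e f) ⊆ (univ : Finset (Fin m)).biUnion fun c =>
      ({e.2, (σ c).symm e.2, σ e.1 e.2, (σ c).symm (σ e.1 e.2)} : Finset V).image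
        (Prod.mk c) := by
    intro f hf
    rw [mem_filter] at hf
    rw [mem_biUnion]
    refine ⟨f.1, mem_univ _, ?_⟩
    rw [mem_image]
    refine ⟨f.2, ?_, rfl⟩
    simp only [mem_insert, mem_singleton]
    rcases hf.2 with h | h | h | h
    · exact Or.inl h.symm
    · exact Or.inr (Or.inl (by rw [h, Equiv.symm_apply_apply]))
    · exact Or.inr (Or.inr (Or.inl h.symm))
    · exact Or.inr (Or.inr (Or.inr (by rw [h, Equiv.symm_apply_apply])))
  refine (card_le_card h1).trans ?_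
  refine (card_biUnion_le_card_mul _ _ 4 ?_).trans ?_
  · intro c _
    refine card_image_le.trans ?_
    exact card_le_four
  · rw [card_univ, Fintype.card_fin, mul_comm]

private theorem card_AA {m : ℕ} (σ : ℕ → Equiv.Perm V) (hg : ∀ c, c < m → Lg (80 * m) (σ c))
    (F : Finset V) (hF : F.card ≤ 8 * m) (w : Σ c : Fin m, {κ // κ ∈ (σ c).cycleFactorsFinset}) :
    64 * m ≤ (AA σ F w).card := by
  obtain ⟨c, κ, hκ⟩ := w
  obtain ⟨hcyc, hsup⟩ := Equiv.Perm.mem_cycleFactorsFinset_iff.1 hκ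
  obtain ⟨x, hx, -⟩ := id hcyc
  have hxs : x ∈ κ.support := Equiv.Perm.mem_support.2 hx
  have hσx : σ c x ≠ x := by rw [← hsup x hxs]; exact hx
  have hκ' : κ = (σ c).cycleOf x := Equiv.Perm.cycle_is_cycleOf hxs hκ
  have h1 := card_supp (hg c c.2) hσx
  set S := univ.filter fun y => σ c y ≠ y ∧ (σ c).SameCycle x y with hS
  have h2 : (S \ (F ∪ F.image (σ c).symm)).image (Prod.mk c) ⊆ AA σ F ⟨c, κ, hκ⟩ := by
    intro e he
    rw [mem_image] at he
    obtain ⟨y, hy, rfl⟩ := he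
    rw [mem_sdiff, mem_union, not_or, hS, mem_filter, mem_image] at hy
    obtain ⟨⟨-, hy1, hy2⟩, hy3, hy4⟩ := hy
    unfold AA
    rw [mem_filter]
    refine ⟨mem_univ _, rfl, ?_, hy3, ?_⟩
    · show y ∈ κ.support
      rw [hκ', Equiv.Perm.mem_support_cycleOf_iff]
      exact ⟨hy2, Equiv.Perm.mem_support.2 hσx⟩
    · intro h
      exact hy4 ⟨σ c y, h, Equiv.symm_apply_apply _ _⟩
  have h3 : ((S \ (F ∪ F.image (σ c).symm)).image (Prod.mk c)).card =
      (S \ (F ∪ F.image (σ c).symm)).card :=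
    card_image_of_injective _ (Prod.mk_right_injective c)
  have h4 := le_card_sdiff (F ∪ F.image (σ c).symm) S
  have h5 := card_union_le F (F.image (σ c).symm)
  have h6 : (F.image (σ c).symm).card ≤ F.card := card_image_le
  have h7 := card_le_card h2
  omega

theorem ordE {m : ℕ} (σ : ℕ → Equiv.Perm V) (hg : ∀ c, c < m → Lg (80 * m) (σ c))
    (F : Finset V) (hF : F.card ≤ 8 * m) : ∃ O, Ord m σ F O := by
  classical
  rcases Nat.eq_zero_or_pos m with rfl | hm
  · refine ⟨fun _ => ∅, ?_, ?_, ?_, ?_, ?_⟩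
    · intro c hc; omega
    · intro c hc; omega
    · intro c hc; omega
    · intro c hc; omega
    · intro c c' hc; omega
  have hdj : ∀ w w' : Σ c : Fin m, {κ // κ ∈ (σ c).cycleFactorsFinset}, w ≠ w' →
      Disjoint (AA σ F w) (AA σ F w') := by
    intro w w' hww
    rw [disjoint_left]
    intro e he he'
    unfold AA at he he'
    rw [mem_filter] at he he'
    obtain ⟨c, κ, hκ⟩ := w
    obtain ⟨c', κ', hκ'⟩ := w'
    obtain ⟨-, h1, h2, -, -⟩ := he
    obtain ⟨-, h1', h2', -, -⟩ := he'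
    simp only at h1 h2 h1' h2'
    have hcc : c = c' := by rw [← h1, h1']
    subst hcc
    apply hww
    have h3 : κ = (σ c).cycleOf e.2 := Equiv.Perm.cycle_is_cycleOf h2 hκ
    have h4 : κ' = (σ c).cycleOf e.2 := Equiv.Perm.cycle_is_cycleOf h2' hκ'
    have h5 : κ = κ' := by rw [h3, h4]
    subst h5
    rfl
  obtain ⟨g, hgA, hgR⟩ := transv (AA σ F) (RR σ) (RR_symm σ) (64 * m) (4 * m) (by omega)
    (card_AA σ hg F hF) hdj (fun e => card_RR σ e) (by omega)
  refine ⟨fun c => univ.filter fun t => ∃ w, ((g w).1 : ℕ) = c ∧ (g w).2 = t, ?_, ?_, ?_, ?_, ?_⟩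
  · intro c hc t ht
    simp only [mem_filter, mem_univ, true_and] at ht
    obtain ⟨w, rfl, rfl⟩ := ht
    have h1 := hgA w
    unfold AA at h1
    rw [mem_filter] at h1
    obtain ⟨-, h2, h3, -, -⟩ := h1
    rw [h2]
    have h4 := (Equiv.Perm.mem_cycleFactorsFinset_iff.1 w.2.2).2 _ h3
    rw [← h4]
    exact Equiv.Perm.mem_support.1 h3
  · intro c hc t ht
    simp only [mem_filter, mem_univ, true_and] at ht
    obtain ⟨w, rfl, rfl⟩ := ht
    have h1 := hgA w
    unfold AA at h1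
    rw [mem_filter] at h1
    exact h1.2.2.2.1
  · intro c hc t ht
    simp only [mem_filter, mem_univ, true_and] at ht
    obtain ⟨w, rfl, rfl⟩ := ht
    have h1 := hgA w
    unfold AA at h1
    rw [mem_filter] at h1
    rw [h1.2.1]
    exact h1.2.2.2.2
  · intro c hc x hx
    have hxs : x ∈ (σ c).support := Equiv.Perm.mem_support.2 hx
    set w : Σ c : Fin m, {κ // κ ∈ (σ c).cycleFactorsFinset} :=
      ⟨⟨c, hc⟩, (σ c).cycleOf x, Equiv.Perm.cycleOf_mem_cycleFactorsFinset_iff.2 hxs⟩ with hw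
    have h1 := hgA w
    unfold AA at h1
    rw [mem_filter] at h1
    obtain ⟨-, h2, h3, -, -⟩ := h1
    refine ⟨(g w).2, ?_, ?_⟩
    · simp only [mem_filter, mem_univ, true_and]
      exact ⟨w, by rw [h2], rfl⟩
    · have h4 : (g w).2 ∈ ((σ c).cycleOf x).support := h3
      rw [Equiv.Perm.mem_support_cycleOf_iff] at h4
      exact h4.1
  · intro c c' hc hc' t ht t' ht' hne
    simp only [mem_filter, mem_univ, true_and] at ht ht'
    obtain ⟨w, rfl, rfl⟩ := ht
    obtain ⟨w', rfl, rfl⟩ := ht'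
    have h1 : w ≠ w' := by
      rintro rfl
      exact hne rfl
    have h2 := hgR w w' h1
    unfold RR at h2
    push Not at h2
    exact h2

end Pool.Agent.H.MP_5bc4af.L4
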