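import Pool.Agent.H.MP_5bc4af_co.L4.Cl
import Pool.Agent.H.MP_5bc4af_co.L4.AsmA
import Pool.Agent.H.MP_5bc4af_co.L4.Glue
import Pool.Agent.H.MP_5bc4af_co.L4.OrdE
import Pool.Agent.H.MP_5bc4af_co.L4.SpcE

/-!
# `m` permutations with long cycles: `m + 1` cycles

`spcE` gives `s, u, F`, then `ordE` gives `O`; `tz` (AsmA.lean) and `col1` (Cl.lean) give `θL c`, `θD c` for
`D c = DD (σ c) (TT m s u O c) (ZZ s u c) (vv s u c)` and `L c = chi (σ c) + D c`; `dg (D c) z ≠ 0` iff
`Vx m σ s u O c z`. `glue` (Glue.lean) for `x c = s c true`, `y c = s c false`: `hsp` is `sep`; `hx`: `spc1` and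
`col1`; `hth`: a common vertex `z` of two colours is some `s c b` (`sep`), so by `spc1` and the last
claim of `col1` `θL c z` and `θD c z` are heads, and `hd1`. `glue` gives
`Cov (∑ c, (chi (σ c) + D c + D c)) (m + 1)`, `D c + D c = 0` (characteristic two), and
`∑ c : Fin m, chi (σ c) = ∑ c ∈ range m, chi (σ c)`.
-/

namespace Pool.Agent.H.MP_5bc4af.L4

open Finset Pool.Agent.H.MP_5bc4af.H5 Pool.Agent.H.MP_5bc4af.L3

variable {V : Type*} [Fintype V] [DecidableEq V]

theorem asm {m : ℕ} (σ : ℕ → Equiv.Perm V) (h3 : ∀ c, c < m → P3 (σ c))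
    (hd : ∀ c c', c < m → c' < m → c ≠ c' → Dj (σ c) (σ c'))
    (hne : ∀ c, c < m → σ c ≠ 1) (hg : ∀ c, c < m → Lg (80 * m) (σ c)) :
    Cov (∑ c ∈ range m, chi (σ c)) (m + 1) := by
  rcases Nat.eq_zero_or_pos m with rfl | hm
  · rw [Finset.range_zero, Finset.sum_empty]
    exact Cov.zero.mono (Nat.zero_le _)
  obtain ⟨s, u, F, hS⟩ := spcE hm σ hd hne hg
  obtain ⟨O, hO⟩ := ordE σ hg F hS.card
  have hcol := fun c : Fin m => col1 (tz h3 hS hO c.2)
  choose θL θD hL hD hn0 h1 hLD hlast using hcol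
  have hVx : ∀ (c : Fin m) (z : V), dg (DD (σ c) (TT m s u O c) (ZZ s u c) (vv s u c)) z ≠ 0 ↔
      Vx m σ s u O c z := fun c z => hn0 c z
  have hsp : ∀ c c' : Fin m, c < c' → ∀ z, Vx m σ s u O c z → Vx m σ s u O c' z →
      (c' : ℕ) = c + 1 ∧ ∃ b, z = s c b := fun c c' hcc z hz hz' =>
    sep hS hO (c := c) (c' := c') hcc c'.2 hz hz'
  have hend : ∀ c c' : Fin m, c ≠ c' → ∀ z, Vx m σ s u O c z → Vx m σ s u O c' z →
      (z ∈ TT m s u O c ∧ ∀ x ∈ ZZ s u c, vv s u c x ≠ z) ∨ z ∈ ZZ s u c := by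
    intro c c' hcc z hz hz'
    rcases lt_or_gt_of_ne hcc with h | h
    · obtain ⟨h2, b, rfl⟩ := hsp c c' h z hz hz'
      have hcm : (c : ℕ) + 1 < m := by
        rw [← h2]
        exact c'.2
      exact Or.inl (spc1 hS hcm b).1
    · obtain ⟨h2, b, rfl⟩ := hsp c' c h z hz' hz
      have hcm : (c' : ℕ) + 1 < m := by
        rw [← h2]
        exact c.2
      rw [h2]
      exact (spc1 hS hcm b).2
  have hg' := glue (fun c : Fin m => chi (σ c) + DD (σ c) (TT m s u O c) (ZZ s u c) (vv s u c))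
    (fun c : Fin m => DD (σ c) (TT m s u O c) (ZZ s u c) (vv s u c)) θL θD (fun c => s c true)
    (fun c => s c false) hL hD hLD (fun c c' hcc z hz hz' => by
      obtain ⟨h2, b, hb⟩ := hsp c c' hcc z ((hVx c z).1 hz) ((hVx c' z).1 hz')
      refine ⟨h2, ?_⟩
      cases b
      · exact Or.inr hb
      · exact Or.inl hb) (fun c c' hcc => by
      have hcm : (c : ℕ) + 1 < m := by
        rw [← hcc]
        exact c'.2
      have hb1 : ∀ b, dg (DD (σ c) (TT m s u O c) (ZZ s u c) (vv s u c)) (s c b) = 1 := by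
        intro b
        exact (h1 c (s c b)).2 (Or.inl (spc1 hS hcm b).1)
      have hb2 : ∀ b, dg (DD (σ c') (TT m s u O c') (ZZ s u c') (vv s u c')) (s c b) = 1 := by
        intro b
        have h := (spc1 (O := O) hS hcm b).2
        rw [← hcc] at h
        rcases h with h | h
        · exact (h1 c' (s c b)).2 (Or.inl h)
        · exact (h1 c' (s c b)).2 (Or.inr (Or.inr h))
      refine ⟨fun h => ?_, hb1 true, hb2 true, hb1 false, hb2 false⟩
      have hdj := hS.dj c true c false hcm hcm (by simp)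
      refine (Finset.disjoint_left.1 hdj) (a := s c true) ?_ ?_
      · unfold blk
        exact Finset.mem_insert_self _ _
      · have h' : s c true = s c false := h
        rw [h']
        unfold blk
        exact Finset.mem_insert_self _ _) (fun c c' hcc z hz hz' c'' hc'' => by
      have h2 := hlast c z (hend c c' hcc z ((hVx c z).1 hz) ((hVx c' z).1 hz'))
      have hne' : (c : ℕ) ≠ (c'' : ℕ) := fun h => hc'' (Fin.ext h.symm)
      constructor
      · by_contra h4
        exact hd1 h3 hS hO c.2 c''.2 hne' h2.1 ((hVx c'' _).1 h4)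
      · by_contra h4
        exact hd1 h3 hS hO c.2 c''.2 hne' h2.2 ((hVx c'' _).1 h4))
  have hsum : ∑ c : Fin m, ((chi (σ c) + DD (σ c) (TT m s u O c) (ZZ s u c) (vv s u c)) +
      DD (σ c) (TT m s u O c) (ZZ s u c) (vv s u c)) = ∑ c ∈ range m, chi (σ c) := by
    rw [Finset.sum_range]
    refine Finset.sum_congr rfl fun c _ => ?_
    funext e
    show chi (σ c) e + DD (σ c) (TT m s u O c) (ZZ s u c) (vv s u c) e +
      DD (σ c) (TT m s u O c) (ZZ s u c) (vv s u c) e = chi (σ c) e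
    rw [add_assoc, CharTwo.add_self_eq_zero, add_zero]
  rw [hsum] at hg'
  exact hg'

end Pool.Agent.H.MP_5bc4af.L4
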