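import Pool.Agent.H.MP_5bc4af_co.L4.Def

/-!
# One colour

`D = DD σ T Z v`, `L = chi σ + D`. Induction on `Z` (`Finset.induction_on`, `T` fixed).
`Z = ∅`: `L = chi σ + arcs σ T` is a linear forest (`lf_rest`), `D = arcs σ T` is a matching (`LF.exists`;
all degrees are at most one by `dg_arcs` and `tt`). `dg D z = 1` iff `z ∈ T` or `σ⁻¹ z ∈ T`; the same for
`L` (`dg_rest`, `One` = exactly one of the two, here never both). `θD t = σ t` for `t ∈ T` (`uni`: `t` and
`σ t` are adjacent). `θL t` for `t ∈ T`: going back from `t` along the unchosen arcs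
`t, σ⁻¹ t, σ⁻² t, …` one comes to a first `h` with `σ⁻¹ h ∈ T` (at the latest for `σ⁻¹ h = t`);
`Con L t h`, `dg L h = 1`, so `θL t = h` (`uni`; `h ≠ t` by `tt`).
Step: `Z = insert x Z'`: `D` and `L` get the edge `x (v x)`; `x` is isolated in both (it is fixed by `σ`
and not in `Z'`; `v x' ≠ x` as `v x'` is moved), `v x ∈ T` has degree one in both (`zi`) and
`θ (v x) ≠ x`; `LF.add` with `p = x`, `q = v x`, `upd θ x (v x)` sends `x` to `θ (v x)` and is `θ` on the
other ends except `θ (v x)` (which is a head, so not relevant for the last claim).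
-/

namespace Pool.Agent.H.MP_5bc4af.L4

open Finset Pool.Agent.H.MP_5bc4af.H5 Pool.Agent.H.MP_5bc4af.L3

variable {V : Type*} [Fintype V] [DecidableEq V]

omit [Fintype V] [DecidableEq V] in
private theorem Cl_ia (σ : Equiv.Perm V) (x : V) : σ⁻¹ (σ x) = x := σ.symm_apply_apply x

omit [Fintype V] [DecidableEq V] in
private theorem Cl_ai (σ : Equiv.Perm V) (x : V) : σ (σ⁻¹ x) = x := σ.apply_symm_apply x

/-- the walk backwards along unchosen arcs -/
private theorem Cl_walk {σ : Equiv.Perm V} (h : P3 σ) {R : Finset V} {z : V} (h1 : σ z ≠ z)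
    (n : ℕ) (hn : ∀ j < n, (σ⁻¹ ^ (j + 1)) z ∉ R) : Con (chi σ + arcs σ R) z ((σ⁻¹ ^ n) z) := by
  induction n with
  | zero => exact Relation.ReflTransGen.refl
  | succ n ih =>
    have h2 := ih fun j hj => hn j (hj.trans (Nat.lt_succ_self n))
    obtain ⟨y, hy⟩ : ∃ y, y = (σ⁻¹ ^ (n + 1)) z := ⟨_, rfl⟩
    have h3 : σ y = (σ⁻¹ ^ n) z := by
      rw [hy, pow_succ', Equiv.Perm.mul_apply, Cl_ai]
    have h4 : σ y ≠ y := by
      intro h5
      have h6 : ∀ k : ℕ, (σ⁻¹ ^ k) z ≠ σ ((σ⁻¹ ^ k) z) := by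
        intro k
        induction k with
        | zero => exact h1.symm
        | succ k ihk =>
          intro h7
          rw [pow_succ', Equiv.Perm.mul_apply, Cl_ai] at h7
          apply ihk
          conv_rhs => rw [← h7]
          rw [Cl_ai]
      exact h6 (n + 1) (by rw [← hy, h5])
    have h5 := rest_ne h y h4 (by rw [hy]; exact hn n (Nat.lt_succ_self n))
    rw [h3, Sym2.eq_swap, hy] at h5
    exact Relation.ReflTransGen.tail h2 h5

private theorem Cl_main {σ : Equiv.Perm V} {T : Finset V} {v : V → V} (Z : Finset V) :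
    TZ σ T Z v →
    ∃ θL θD : V → V, LF (chi σ + DD σ T Z v) θL ∧ LF (DD σ T Z v) θD ∧
      (∀ z, dg (DD σ T Z v) z ≠ 0 ↔ z ∈ T ∨ σ⁻¹ z ∈ T ∨ z ∈ Z) ∧
      (∀ z, dg (DD σ T Z v) z = 1 ↔ (z ∈ T ∧ ∀ x ∈ Z, v x ≠ z) ∨ σ⁻¹ z ∈ T ∨ z ∈ Z) ∧
      (∀ z, dg (chi σ + DD σ T Z v) z = 1 ↔ dg (DD σ T Z v) z = 1) ∧
      (∀ z, (z ∈ T ∧ ∀ x ∈ Z, v x ≠ z) ∨ z ∈ Z → σ⁻¹ (θL z) ∈ T ∧ σ⁻¹ (θD z) ∈ T) ∧
      ∀ z, σ z = z → z ∉ Z → dg (chi σ + DD σ T Z v) z = 0 := by
  induction Z using Finset.induction_on with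
  | empty =>
    intro h
    have hD : DD σ T ∅ v = arcs σ T := by
      unfold DD
      rw [Finset.sum_empty, add_zero]
    rw [hD]
    have hti : ∀ z, z ∈ T → σ⁻¹ z ∉ T := by
      intro z hz h1
      have h2 := h.tt _ h1
      rw [Cl_ai] at h2
      exact h2 hz
    have hdg := dg_arcs h.p3 h.tm
    have hdl : ∀ z, dg (arcs σ T) z ≤ 1 := by
      intro z
      rw [hdg]
      by_cases h1 : z ∈ T
      · rw [if_pos h1, if_neg (hti z h1)]
      · rw [if_neg h1]
        split_ifs <;> omega
    obtain ⟨θL, hL⟩ := lf_rest h.p3 h.tm h.te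
    obtain ⟨θD, hθD⟩ := LF.exists (arcs σ T) (arcs_diag σ T) (fun z => (hdl z).trans (by norm_num))
      (fun z => ⟨z, hdl z, Relation.ReflTransGen.refl⟩)
    have h1D : ∀ z, dg (arcs σ T) z = 1 ↔ z ∈ T ∨ σ⁻¹ z ∈ T := by
      intro z
      rw [hdg]
      by_cases h1 : z ∈ T
      · rw [if_pos h1, if_neg (hti z h1)]
        exact ⟨fun _ => Or.inl h1, fun _ => rfl⟩
      · rw [if_neg h1]
        by_cases h2 : σ⁻¹ z ∈ T
        · rw [if_pos h2]
          exact ⟨fun _ => Or.inr h2, fun _ => rfl⟩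
        · rw [if_neg h2]
          exact ⟨fun h3 => absurd h3 (by norm_num), fun h3 => absurd h3 (by tauto)⟩
    have h1L : ∀ z, dg (chi σ + arcs σ T) z = 1 ↔ z ∈ T ∨ σ⁻¹ z ∈ T := by
      intro z
      rw [dg_rest h.p3 h.tm]
      unfold L3.One
      have := hti z
      tauto
    refine ⟨θL, θD, hL, hθD, fun z => ?_, fun z => ?_, fun z => ?_, fun z hz => ?_, fun z hz _ => ?_⟩
    · have h2 := hdl z
      have h3 := h1D z
      constructor
      · intro h4
        rcases h3.1 (by omega) with h5 | h5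
        · exact Or.inl h5
        · exact Or.inr (Or.inl h5)
      · rintro (h4 | h4 | h4)
        · have := h3.2 (Or.inl h4)
          omega
        · have := h3.2 (Or.inr h4)
          omega
        · exact absurd h4 (Finset.notMem_empty _)
    · rw [h1D]
      constructor
      · rintro (h4 | h4)
        · exact Or.inl ⟨h4, fun x hx => absurd hx (Finset.notMem_empty _)⟩
        · exact Or.inr (Or.inl h4)
      · rintro (h4 | h4 | h4)
        · exact Or.inl h4.1
        · exact Or.inr h4
        · exact absurd h4 (Finset.notMem_empty _)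
    · rw [h1L, h1D]
    · have hzT : z ∈ T := by
        rcases hz with h4 | h4
        · exact h4.1
        · exact absurd h4 (Finset.notMem_empty _)
      have hzm := h.tm z hzT
      constructor
      · have hex : ∃ n : ℕ, (σ⁻¹ ^ (n + 1)) z ∈ T := by
          refine ⟨orderOf σ⁻¹ - 1, ?_⟩
          have h5 : orderOf σ⁻¹ - 1 + 1 = orderOf σ⁻¹ := Nat.succ_pred_eq_of_pos (orderOf_pos _)
          rw [h5, pow_orderOf_eq_one]
          exact hzT
        have hw := Cl_walk h.p3 (R := T) hzm (Nat.find hex) fun j hj => Nat.find_min hex hj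
        have hsp := Nat.find_spec hex
        obtain ⟨t, ht⟩ : ∃ t, t = (σ⁻¹ ^ Nat.find hex) z := ⟨_, rfl⟩
        rw [← ht] at hw
        rw [pow_succ', Equiv.Perm.mul_apply, ← ht] at hsp
        have htT : t ∉ T := fun h6 => hti t h6 hsp
        rcases hL.uni z t ((h1L z).2 (Or.inl hzT)).le ((h1L t).2 (Or.inr hsp)).le hw with h7 | h7
        · rw [h7] at htT
          exact absurd hzT htT
        · rw [← h7]
          exact hsp
      · have h5 : arcs σ T s(z, σ z) ≠ 0 := (arcs_ne h.p3 h.tm z (σ z)).2 (Or.inl ⟨hzT, rfl⟩)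
        rcases hθD.uni z (σ z) (hdl z) (hdl _) (Con.step h5) with h7 | h7
        · exact absurd h7 hzm
        · rw [← h7, Cl_ia]
          exact hzT
    · rw [chi_arcs, dg_arcs h.p3 (fun _ hv => (Finset.mem_filter.1 hv).2.1)]
      have h5 : σ⁻¹ z = z := by
        conv_lhs => rw [← hz]
        exact Cl_ia σ z
      rw [h5, if_neg fun h6 => (Finset.mem_filter.1 h6).2.1 hz]
  | insert x Z hxZ ih =>
    intro h
    have h' : TZ σ T Z v := ⟨h.p3, h.tm, h.tt, h.te, fun y hy => h.zm y (Finset.mem_insert_of_mem hy),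
      fun y hy => h.zv y (Finset.mem_insert_of_mem hy), fun y hy w hw =>
        h.zi y (Finset.mem_insert_of_mem hy) w (Finset.mem_insert_of_mem hw)⟩
    obtain ⟨θL, θD, hL, hD, hA, hB, hC, hE, hF⟩ := ih h'
    have hti : ∀ z, z ∈ T → σ⁻¹ z ∉ T := by
      intro z hz h1
      have h2 := h.tt _ h1
      rw [Cl_ai] at h2
      exact h2 hz
    have hxf : σ x = x := h.zm x (Finset.mem_insert_self _ _)
    have hxi : σ⁻¹ x = x := by
      conv_lhs => rw [← hxf]
      exact Cl_ia σ x
    have hxT : x ∉ T := fun h1 => h.tm x h1 hxf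
    obtain ⟨q, hq⟩ : ∃ q, q = v x := ⟨_, rfl⟩
    have hqT : q ∈ T := by
      rw [hq]
      exact h.zv x (Finset.mem_insert_self _ _)
    have hqo : ∀ y ∈ Z, v y ≠ q := by
      intro y hy h1
      have h2 := h.zi y (Finset.mem_insert_of_mem hy) x (Finset.mem_insert_self _ _)
        (by rw [h1, hq])
      rw [h2] at hy
      exact hxZ hy
    have hxq : x ≠ q := fun h1 => hxT (h1 ▸ hqT)
    have hD1 : DD σ T (insert x Z) v = DD σ T Z v + ev x q := by
      unfold DD
      rw [Finset.sum_insert hxZ, hq]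
      abel
    have hL1 : chi σ + DD σ T (insert x Z) v = chi σ + DD σ T Z v + ev x q := by
      rw [hD1, add_assoc]
    rw [hD1, ← add_assoc]
    have dx0 : dg (DD σ T Z v) x = 0 := by
      by_contra h1
      rcases (hA x).1 h1 with h2 | h2 | h2
      · exact hxT h2
      · rw [hxi] at h2
        exact hxT h2
      · exact hxZ h2
    have lx0 : dg (chi σ + DD σ T Z v) x = 0 := hF x hxf hxZ
    have dq1 : dg (DD σ T Z v) q = 1 := (hB q).2 (Or.inl ⟨hqT, hqo⟩)
    have lq1 : dg (chi σ + DD σ T Z v) q = 1 := (hC q).2 dq1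
    have hθD : θD x = x := hD.iso x dx0
    have hθL : θL x = x := hL.iso x lx0
    have hDs := hD.sep hxq (by omega) (by omega) (by rw [hθD]; exact hxq)
    have hLs := hL.sep hxq (by omega) (by omega) (by rw [hθL]; exact hxq)
    have dD := dg_add_ev _ hxq hDs
    have dL := dg_add_ev _ hxq hLs
    have hqZ : q ∉ Z := fun h1 => h.tm q hqT (h.zm q (Finset.mem_insert_of_mem h1))
    refine ⟨upd θL x q, upd θD x q, hL.add hxq (by omega) (by omega) (by rw [hθL]; exact hxq),
      hD.add hxq (by omega) (by omega) (by rw [hθD]; exact hxq), fun z => ?_, fun z => ?_,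
      fun z => ?_, fun z hz => ?_, fun z hz hzZ => ?_⟩
    · rw [dD]
      by_cases h1 : z = x
      · subst h1
        rw [if_pos rfl]
        exact ⟨fun _ => Or.inr (Or.inr (Finset.mem_insert_self _ _)), fun _ => by omega⟩
      · by_cases h2 : z = q
        · subst h2
          rw [if_pos rfl]
          exact ⟨fun _ => Or.inl hqT, fun _ => by omega⟩
        · rw [if_neg h1, if_neg h2, add_zero, add_zero, hA z, Finset.mem_insert]
          tauto
    · rw [dD]
      by_cases h1 : z = x
      · subst h1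
        rw [if_pos rfl, if_neg hxq, dx0]
        exact ⟨fun _ => Or.inr (Or.inr (Finset.mem_insert_self _ _)), fun _ => rfl⟩
      · by_cases h2 : z = q
        · subst h2
          rw [if_neg h1, if_pos rfl, dq1]
          constructor
          · intro h3
            exact absurd h3 (by norm_num)
          · rintro (h3 | h3 | h3)
            · exact absurd hq.symm (h3.2 x (Finset.mem_insert_self _ _))
            · exact absurd h3 (hti _ hqT)
            · rcases Finset.mem_insert.1 h3 with h4 | h4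
              · exact absurd h4 h1
              · exact absurd h4 hqZ
        · rw [if_neg h1, if_neg h2, add_zero, add_zero, hB z, Finset.mem_insert]
          have h3 : (∀ y ∈ insert x Z, v y ≠ z) ↔ ∀ y ∈ Z, v y ≠ z := by
            constructor
            · exact fun h4 y hy => h4 y (Finset.mem_insert_of_mem hy)
            · intro h4 y hy
              rcases Finset.mem_insert.1 hy with h5 | h5
              · rw [h5, ← hq]
                exact fun h6 => h2 h6.symm
              · exact h4 y h5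
          rw [h3]
          tauto
    · rw [dD, dL]
      by_cases h1 : z = x
      · rw [h1, dx0, lx0]
      · by_cases h2 : z = q
        · rw [h2, dq1, lq1]
        · rw [if_neg h1, if_neg h2, add_zero, add_zero, add_zero, add_zero]
          exact hC z
    · have hqE := hE q (Or.inl ⟨hqT, hqo⟩)
      by_cases h1 : z = x
      · have e1 : upd θL x q z = θL q := by
          unfold upd
          rw [hθL, if_pos h1]
        have e2 : upd θD x q z = θD q := by
          unfold upd
          rw [hθD, if_pos h1]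
        rw [e1, e2]
        exact hqE
      · have hz' : (z ∈ T ∧ ∀ y ∈ Z, v y ≠ z) ∨ z ∈ Z := by
          rcases hz with h2 | h2
          · exact Or.inl ⟨h2.1, fun y hy => h2.2 y (Finset.mem_insert_of_mem hy)⟩
          · rcases Finset.mem_insert.1 h2 with h3 | h3
            · exact absurd h3 h1
            · exact Or.inr h3
        have hzi : σ⁻¹ z ∉ T := by
          rcases hz' with h2 | h2
          · exact hti z h2.1
          · have h3 := h'.zm z h2
            have h4 : σ⁻¹ z = z := by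
              conv_lhs => rw [← h3]
              exact Cl_ia σ z
            rw [h4]
            exact fun h5 => h.tm z h5 h3
        have e1 : upd θL x q z = θL z := by
          unfold upd
          rw [hθL, if_neg h1, if_neg fun h2 : z = θL q => hzi (by rw [h2]; exact hqE.1)]
        have e2 : upd θD x q z = θD z := by
          unfold upd
          rw [hθD, if_neg h1, if_neg fun h2 : z = θD q => hzi (by rw [h2]; exact hqE.2)]
        rw [e1, e2]
        exact hE z hz'
    · rw [dL]
      have h1 : z ≠ x := fun h2 => hzZ (h2 ▸ Finset.mem_insert_self _ _)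
      have h2 : z ≠ q := fun h3 => h.tm q hqT (h3 ▸ hz)
      rw [if_neg h1, if_neg h2, add_zero, add_zero]
      exact hF z hz fun h3 => hzZ (Finset.mem_insert_of_mem h3)

theorem col1 {σ : Equiv.Perm V} {T Z : Finset V} {v : V → V} (h : TZ σ T Z v) :
    ∃ θL θD : V → V, LF (chi σ + DD σ T Z v) θL ∧ LF (DD σ T Z v) θD ∧
      (∀ z, dg (DD σ T Z v) z ≠ 0 ↔ z ∈ T ∨ σ⁻¹ z ∈ T ∨ z ∈ Z) ∧
      (∀ z, dg (DD σ T Z v) z = 1 ↔ (z ∈ T ∧ ∀ x ∈ Z, v x ≠ z) ∨ σ⁻¹ z ∈ T ∨ z ∈ Z) ∧
      (∀ z, dg (chi σ + DD σ T Z v) z = 1 ↔ dg (DD σ T Z v) z = 1) ∧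
      ∀ z, (z ∈ T ∧ ∀ x ∈ Z, v x ≠ z) ∨ z ∈ Z → σ⁻¹ (θL z) ∈ T ∧ σ⁻¹ (θD z) ∈ T := by
  obtain ⟨θL, θD, h1, h2, h3, h4, h5, h6, -⟩ := Cl_main Z h
  exact ⟨θL, θD, h1, h2, h3, h4, h5, h6⟩

end Pool.Agent.H.MP_5bc4af.L4
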