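import Pool.Agent.H.MP_5bc4af_co.L3.Arc

/-!
# Definitions for graphs of large girth
-/

namespace Pool.Agent.H.MP_5bc4af.L4

open Finset Pool.Agent.H.MP_5bc4af.H5 Pool.Agent.H.MP_5bc4af.L3

variable {V : Type*} [Fintype V] [DecidableEq V]

/-- every nontrivial cycle of `σ` has at least `g` elements -/
def Lg (g : ℕ) (σ : Equiv.Perm V) : Prop := ∀ x k, σ x ≠ x → 0 < k → k < g → (σ ^ k) x ≠ x

/-- The chosen arcs of one colour: the arcs with tail in `T` and the edges `x (v x)`, `x ∈ Z`. -/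
def DD (σ : Equiv.Perm V) (T Z : Finset V) (v : V → V) : Sym2 V → ZMod 2 :=
  arcs σ T + ∑ x ∈ Z, ev x (v x)

/-- Tails `T` and inserted vertices `Z` of one colour: the arcs with tail in `T` are disjoint and meet
every nontrivial cycle; every `x ∈ Z` is a fixed point which is joined to a tail `v x`. -/
structure TZ (σ : Equiv.Perm V) (T Z : Finset V) (v : V → V) : Prop where
  p3 : P3 σ
  tm : ∀ t ∈ T, σ t ≠ t
  tt : ∀ t ∈ T, σ t ∉ T
  te : ∀ x, σ x ≠ x → ∃ t ∈ T, σ.SameCycle x t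
  zm : ∀ x ∈ Z, σ x = x
  zv : ∀ x ∈ Z, v x ∈ T
  zi : ∀ x ∈ Z, ∀ y ∈ Z, v x = v y → x = y

/-- the four vertices of the crossing `(j, b)` -/
def blk (σ : ℕ → Equiv.Perm V) (s u : ℕ → Bool → V) (j : ℕ) (b : Bool) : Finset V :=
  {s j b, σ j (s j b), u j b, σ (j + 1) (u j b)}

/-- Crossings: for `j + 1 < m` and `b : Bool` the vertex `s j b` is moved by `σ j`; `u j b` is moved by
`σ (j + 1)` and is `s j b` or `s j b` is fixed by `σ (j + 1)`. The crossings are disjoint. -/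
structure Spc (m : ℕ) (σ : ℕ → Equiv.Perm V) (s u : ℕ → Bool → V) (F : Finset V) : Prop where
  card : F.card ≤ 8 * m
  sm : ∀ j b, j + 1 < m → σ j (s j b) ≠ s j b
  um : ∀ j b, j + 1 < m → σ (j + 1) (u j b) ≠ u j b
  us : ∀ j b, j + 1 < m → u j b = s j b ∨ σ (j + 1) (s j b) = s j b
  sub : ∀ j b, j + 1 < m → blk σ s u j b ⊆ F
  d1 : ∀ j b, j + 1 < m → u j b ≠ σ j (s j b)
  d2 : ∀ j b, j + 1 < m → σ (j + 1) (u j b) ≠ s j b
  d3 : ∀ j b, j + 1 < m → σ (j + 1) (u j b) ≠ σ j (s j b)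
  dj : ∀ j b j' b', j + 1 < m → j' + 1 < m → (j, b) ≠ (j', b') →
    Disjoint (blk σ s u j b) (blk σ s u j' b')

/-- Ordinary arcs: tails `O c` on every nontrivial cycle of `σ c`; the arcs avoid `F` and are pairwise
disjoint. -/
structure Ord (m : ℕ) (σ : ℕ → Equiv.Perm V) (F : Finset V) (O : ℕ → Finset V) : Prop where
  mv : ∀ c, c < m → ∀ t ∈ O c, σ c t ≠ t
  f1 : ∀ c, c < m → ∀ t ∈ O c, t ∉ F
  f2 : ∀ c, c < m → ∀ t ∈ O c, σ c t ∉ F
  ex : ∀ c, c < m → ∀ x, σ c x ≠ x → ∃ t ∈ O c, (σ c).SameCycle x t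
  dj : ∀ c c', c < m → c' < m → ∀ t ∈ O c, ∀ t' ∈ O c', (c, t) ≠ (c', t') →
    t ≠ t' ∧ t ≠ σ c' t' ∧ σ c t ≠ t' ∧ σ c t ≠ σ c' t'

end Pool.Agent.H.MP_5bc4af.L4
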