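import Pool.Agent.H.MP_5bc4af_co.L4.Def

/-!
# Cycles of permutations and the girth

`lg_girth`: let `σ` be a permutation without cycles of length two whose arcs are edges of `G`. If
`σ x ≠ x`, `0 < k` and `(σ ^ k) x = x`, take the least such `k` (at least three): the vertices
`x, σ x, …, σ^(k-1) x` are different and form a cycle of `G` of length `k`: build the walk
`w : G.Walk (σ x) x` along `σ x, σ² x, …, σ^k x = x` (a path) and use `SimpleGraph.Walk.cons_isCycle_iff`; so
`G.egirth ≤ k`.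
-/

namespace Pool.Agent.H.MP_5bc4af.L4

open Finset Pool.Agent.H.MP_5bc4af.H5 Pool.Agent.H.MP_5bc4af.L3

private theorem Gir_walk {V : Type*} {G : SimpleGraph V} (f : ℕ → V) (n : ℕ)
    (h : ∀ i < n, G.Adj (f i) (f (i + 1))) : ∃ w : G.Walk (f 0) (f n), w.length = n ∧
      w.support = (List.range (n + 1)).map f ∧
      w.edges = (List.range n).map fun i => s(f i, f (i + 1)) := by
  induction n with
  | zero => exact ⟨SimpleGraph.Walk.nil, rfl, rfl, rfl⟩
  | succ n ih =>
    obtain ⟨w, h1, h2, h3⟩ := ih fun i hi => h i (by omega)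
    refine ⟨w.concat (h n (by omega)), ?_, ?_, ?_⟩
    · rw [SimpleGraph.Walk.length_concat, h1]
    · rw [SimpleGraph.Walk.support_concat, h2, List.range_succ (n := n + 1), List.map_append]
      rfl
    · rw [SimpleGraph.Walk.edges_concat, h3, List.range_succ, List.map_append,
        List.concat_eq_append]
      rfl

theorem lg_girth {V : Type*} (G : SimpleGraph V) {g : ℕ} (hG : (g : ℕ∞) ≤ G.egirth)
    (σ : Equiv.Perm V) (h3 : P3 σ) (hσ : ∀ x, σ x ≠ x → G.Adj x (σ x)) : Lg g σ := by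
  intro x k hx hk hkg hkx
  classical
  have hex : ∃ k, 0 < k ∧ (σ ^ k) x = x := ⟨k, hk, hkx⟩
  obtain ⟨n, hn⟩ : ∃ n, n = Nat.find hex := ⟨_, rfl⟩
  have hn1 : 0 < n ∧ (σ ^ n) x = x := by
    rw [hn]
    exact Nat.find_spec hex
  have hnk : n ≤ k := by
    rw [hn]
    exact Nat.find_min' hex ⟨hk, hkx⟩
  have hmin : ∀ j, 0 < j → j < n → (σ ^ j) x ≠ x := by
    intro j hj hjn h
    rw [hn] at hjn
    exact Nat.find_min hex hjn ⟨hj, h⟩
  have hn2 : n ≠ 1 := by
    intro h
    rw [h, pow_one] at hn1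
    exact hx hn1.2
  have hn3 : n ≠ 2 := by
    intro h
    rw [h, pow_two, Equiv.Perm.mul_apply] at hn1
    exact h3 x hx hn1.2
  -- the vertices are different
  have hinj : ∀ i j, i < j → j < n → (σ ^ (i + 1)) x ≠ (σ ^ (j + 1)) x := by
    intro i j hij hj h
    have h1 : (σ ^ (i + 1)) ((σ ^ (j - i)) x) = (σ ^ (i + 1)) x := by
      rw [← Equiv.Perm.mul_apply, ← pow_add, h]
      congr 2
      omega
    exact hmin (j - i) (by omega) (by omega) ((σ ^ (i + 1)).injective h1)
  have hmv : ∀ i, σ ((σ ^ i) x) ≠ (σ ^ i) x := by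
    intro i h
    rw [← Equiv.Perm.mul_apply, ← pow_succ', pow_succ, Equiv.Perm.mul_apply] at h
    exact hx ((σ ^ i).injective h)
  have hadj : ∀ i < n - 1, G.Adj ((σ ^ (i + 1)) x) ((σ ^ (i + 1 + 1)) x) := by
    intro i _
    have h1 := hσ _ (hmv (i + 1))
    rwa [← Equiv.Perm.mul_apply, ← pow_succ'] at h1
  obtain ⟨w, w1, w2, w3⟩ := Gir_walk (G := G) (fun i => (σ ^ (i + 1)) x) (n - 1) hadj
  have hend : (σ ^ (n - 1 + 1)) x = x := by
    rw [Nat.sub_add_cancel hn1.1]
    exact hn1.2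
  have hst : (σ ^ (0 + 1)) x = σ x := by rw [zero_add, pow_one]
  obtain ⟨w', w1', w2', w3'⟩ : ∃ w' : G.Walk (σ x) x, w'.length = n - 1 ∧
      w'.support = (List.range (n - 1 + 1)).map (fun i => (σ ^ (i + 1)) x) ∧
      w'.edges = (List.range (n - 1)).map fun i => s((σ ^ (i + 1)) x, (σ ^ (i + 1 + 1)) x) := by
    refine ⟨w.copy hst hend, ?_, ?_, ?_⟩
    · rw [SimpleGraph.Walk.length_copy, w1]
    · rw [SimpleGraph.Walk.support_copy, w2]
    · rw [SimpleGraph.Walk.edges_copy, w3]
  have hinj' : ∀ i j, i < n → j < n → (σ ^ (i + 1)) x = (σ ^ (j + 1)) x → i = j := by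
    intro i j hi hj h
    rcases lt_trichotomy i j with h1 | h1 | h1
    · exact absurd h (hinj i j h1 hj)
    · exact h1
    · exact absurd h.symm (hinj j i h1 hi)
  have hcyc : (SimpleGraph.Walk.cons (hσ x hx) w').IsCycle := by
    rw [SimpleGraph.Walk.cons_isCycle_iff]
    constructor
    · rw [SimpleGraph.Walk.isPath_def, w2']
      refine List.Nodup.map_on ?_ List.nodup_range
      intro i hi j hj hij
      rw [List.mem_range] at hi hj
      exact hinj' i j (by omega) (by omega) hij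
    · rw [w3', List.mem_map]
      rintro ⟨i, hi, h1⟩
      rw [List.mem_range] at hi
      rw [Sym2.eq_iff] at h1
      rcases h1 with ⟨h2, h3⟩ | ⟨h2, h3⟩
      · have h4 := hinj' i (n - 1) (by omega) (by omega) (by rw [h2, hend])
        omega
      · have h4 := hinj' i 0 (by omega) (by omega) (by rw [h2, hst])
        have h5 := hinj' (i + 1) (n - 1) (by omega) (by omega) (by rw [h3, hend])
        omega
  have h1 := SimpleGraph.egirth_le_length hcyc
  rw [SimpleGraph.Walk.length_cons, w1'] at h1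
  have h2 : (g : ℕ∞) ≤ ((n - 1 + 1 : ℕ) : ℕ∞) := hG.trans h1
  have h3 : g ≤ n - 1 + 1 := by exact_mod_cast h2
  omega

end Pool.Agent.H.MP_5bc4af.L4
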