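import Pool.Agent.H.MP_5bc4af_co.L4.Def
import Pool.Agent.H.MP_5bc4af_co.L3.LFe

/-!
# The sum of the `D c`

`gluA`: `D₀ = ∑ c, D c`. A vertex `z` is special if `dg (D c) z ≠ 0` for two colours `c < c'`; then
`c' = c + 1`, `z = x c` or `z = y c`, and both degrees are one; no vertex is in three colours (`hsp` for the first
and the last of them). No edge is in two of the `D c`: its ends would be `x c` and `y c`, both of degree
one in `D c`, so `θD c (x c) = y c` (`uni`), against `hth`. So `D₀ s(a, b) ≠ 0` iff some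
`D c s(a, b) ≠ 0`, and `dg D₀ z = ∑ c, dg (D c) z`. `D₀` is a linear forest by `LF.exists` (L3/Col.lean or
L3/LFe.lean): every `z` with `dg (D c) z ≠ 0` is joined in `D c` to an end `e` of `D c`; if `e` is not special,
`dg D₀ e = 1`; if `e` is special, then `θD c e` is in colour `c` only (`hth`) and is an end.
-/

namespace Pool.Agent.H.MP_5bc4af.L4

open Finset Pool.Agent.H.MP_5bc4af.H5 Pool.Agent.H.MP_5bc4af.L3

variable {V : Type*} [Fintype V] [DecidableEq V]

omit [DecidableEq V] in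
private theorem GluA_dg {f : Sym2 V → ZMod 2} {a : V} : dg f a ≠ 0 ↔ ∃ w, f s(a, w) ≠ 0 := by
  unfold dg
  rw [Finset.card_ne_zero]
  constructor
  · rintro ⟨w, hw⟩
    exact ⟨w, (Finset.mem_filter.1 hw).2⟩
  · rintro ⟨w, hw⟩
    exact ⟨w, Finset.mem_filter.2 ⟨Finset.mem_univ w, hw⟩⟩

omit [DecidableEq V] in
private theorem GluA_dg' {f : Sym2 V → ZMod 2} {a b : V} (h : f s(a, b) ≠ 0) : dg f b ≠ 0 :=
  GluA_dg.2 ⟨a, by rw [Sym2.eq_swap]; exact h⟩

theorem gluA {m : ℕ} (D : Fin m → Sym2 V → ZMod 2) (θD : Fin m → V → V) (x y : ℕ → V)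
    (hD : ∀ c, LF (D c) (θD c))
    (hsp : ∀ c c' : Fin m, c < c' → ∀ z, dg (D c) z ≠ 0 → dg (D c') z ≠ 0 →
      (c' : ℕ) = c + 1 ∧ (z = x c ∨ z = y c))
    (hx : ∀ c c' : Fin m, (c' : ℕ) = c + 1 → x c ≠ y c ∧ dg (D c) (x c) = 1 ∧
      dg (D c') (x c) = 1 ∧ dg (D c) (y c) = 1 ∧ dg (D c') (y c) = 1)
    (hth : ∀ c c' : Fin m, c ≠ c' → ∀ z, dg (D c) z ≠ 0 → dg (D c') z ≠ 0 →
      ∀ c'' : Fin m, c'' ≠ c → dg (D c'') (θD c z) = 0) :
    (∃ θ, LF (∑ c, D c) θ) ∧ (∀ z, dg (∑ c, D c) z = ∑ c, dg (D c) z) ∧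
      ∀ c a b, D c s(a, b) ≠ 0 → (∑ c, D c) s(a, b) ≠ 0 := by
  classical
  -- no edge is in two colours, ordered form
  have h1' : ∀ c c' : Fin m, c < c' → ∀ a b, D c s(a, b) ≠ 0 → D c' s(a, b) = 0 := by
    intro c c' hcc a b hab
    by_contra hab'
    have ha : dg (D c) a ≠ 0 := GluA_dg.2 ⟨b, hab⟩
    have ha' : dg (D c') a ≠ 0 := GluA_dg.2 ⟨b, hab'⟩
    have hb : dg (D c) b ≠ 0 := GluA_dg' hab
    have hb' : dg (D c') b ≠ 0 := GluA_dg' hab'
    obtain ⟨e1, e2⟩ := hsp c c' hcc a ha ha'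
    obtain ⟨-, e3⟩ := hsp c c' hcc b hb hb'
    obtain ⟨-, d1, -, d2, -⟩ := hx c c' e1
    have hda : dg (D c) a ≤ 1 := by
      rcases e2 with e2 | e2 <;> rw [e2]
      · exact d1.le
      · exact d2.le
    have hdb : dg (D c) b ≤ 1 := by
      rcases e3 with e3 | e3 <;> rw [e3]
      · exact d1.le
      · exact d2.le
    have hne : b ≠ a := by
      rintro rfl
      exact hab ((hD c).diag b)
    have hth' : b = θD c a := by
      rcases (hD c).uni a b hda hdb (Relation.ReflTransGen.single hab) with h | h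
      · exact absurd h hne
      · exact h
    have h4 := hth c c' hcc.ne a ha ha' c' hcc.ne'
    rw [← hth'] at h4
    exact hb' h4
  have h1 : ∀ c c' : Fin m, c ≠ c' → ∀ a b, D c s(a, b) ≠ 0 → D c' s(a, b) = 0 := by
    intro c c' hcc a b hab
    rcases lt_or_gt_of_ne hcc with h | h
    · exact h1' c c' h a b hab
    · by_contra h2
      exact hab (h1' c' c h a b h2)
  have hsum : ∀ e, (∑ c, D c) e = ∑ c, D c e := fun e => Finset.sum_apply _ _ _
  have h2 : ∀ c a b, D c s(a, b) ≠ 0 → (∑ c, D c) s(a, b) = D c s(a, b) := by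
    intro c a b hab
    rw [hsum]
    refine Finset.sum_eq_single c (fun c' _ hc' => h1 c c' hc'.symm a b hab) ?_
    intro h
    exact absurd (Finset.mem_univ c) h
  have h3 : ∀ c a b, D c s(a, b) ≠ 0 → (∑ c, D c) s(a, b) ≠ 0 := by
    intro c a b hab
    rw [h2 c a b hab]
    exact hab
  have h4 : ∀ a b, (∑ c, D c) s(a, b) ≠ 0 → ∃ c, D c s(a, b) ≠ 0 := by
    intro a b hab
    by_contra hcon
    push Not at hcon
    apply hab
    rw [hsum]
    exact Finset.sum_eq_zero fun c _ => hcon c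
  have h5 : ∀ z, dg (∑ c, D c) z = ∑ c, dg (D c) z := by
    intro z
    unfold dg
    rw [← Finset.card_biUnion]
    · congr 1
      ext w
      simp only [Finset.mem_filter, Finset.mem_univ, true_and, Finset.mem_biUnion]
      exact ⟨h4 z w, fun ⟨c, hc⟩ => h3 c z w hc⟩
    · intro c _ c' _ hcc
      rw [Function.onFun, Finset.disjoint_left]
      intro w hw hw'
      exact (Finset.mem_filter.1 hw').2 (h1 c c' hcc z w (Finset.mem_filter.1 hw).2)
  -- two colours at a vertex
  have h6 : ∀ c c' : Fin m, c < c' → ∀ z, dg (D c) z ≠ 0 → dg (D c') z ≠ 0 →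
      dg (D c) z = 1 ∧ dg (D c') z = 1 ∧ ∀ c'', c'' ≠ c → c'' ≠ c' → dg (D c'') z = 0 := by
    intro c c' hcc z hz hz'
    obtain ⟨e1, e2⟩ := hsp c c' hcc z hz hz'
    obtain ⟨-, d1, d2, d3, d4⟩ := hx c c' e1
    refine ⟨?_, ?_, ?_⟩
    · rcases e2 with e2 | e2 <;> rw [e2] <;> assumption
    · rcases e2 with e2 | e2 <;> rw [e2] <;> assumption
    · intro c'' hc hc'
      by_contra hz''
      have k1 : (c : ℕ) < c' := hcc
      have k2 : (c'' : ℕ) ≠ c := fun h => hc (Fin.ext h)
      have k3 : (c'' : ℕ) ≠ c' := fun h => hc' (Fin.ext h)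
      rcases lt_or_gt_of_ne hc with h | h
      · have k4 : (c'' : ℕ) < c := h
        obtain ⟨e3, -⟩ := hsp c'' c' (lt_trans h hcc) z hz'' hz'
        omega
      · have k4 : (c : ℕ) < c'' := h
        obtain ⟨e3, -⟩ := hsp c c'' h z hz hz''
        omega
  have h7 : ∀ z, dg (∑ c, D c) z ≤ 2 := by
    intro z
    rw [h5]
    by_cases hc : ∃ c, dg (D c) z ≠ 0
    · obtain ⟨c, hc⟩ := hc
      by_cases hc2 : ∃ c', c' ≠ c ∧ dg (D c') z ≠ 0
      · obtain ⟨c', hne, hc'⟩ := hc2
        have key : ∀ a b : Fin m, a < b → dg (D a) z ≠ 0 → dg (D b) z ≠ 0 →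
            ∑ c, dg (D c) z ≤ 2 := by
          intro a b hab ha hb
          obtain ⟨k1, k2, k3⟩ := h6 a b hab z ha hb
          have k4 : ∑ c, dg (D c) z = ∑ c ∈ ({a, b} : Finset (Fin m)), dg (D c) z := by
            symm
            refine Finset.sum_subset (Finset.subset_univ _) fun c _ hc => ?_
            simp only [Finset.mem_insert, Finset.mem_singleton, not_or] at hc
            exact k3 c hc.1 hc.2
          rw [k4, Finset.sum_pair hab.ne, k1, k2]
        rcases lt_or_gt_of_ne hne with h | h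
        · exact key c' c h hc' hc
        · exact key c c' h hc hc'
      · push Not at hc2
        rw [Finset.sum_eq_single c (fun c' _ hc' => hc2 c' hc')
          (fun h => absurd (Finset.mem_univ c) h)]
        exact (hD c).deg z
    · push Not at hc
      rw [Finset.sum_eq_zero fun c _ => hc c]
      exact Nat.zero_le 2
  have h8 : ∀ c v w, Con (D c) v w → Con (∑ c, D c) v w := fun c v w h =>
    Relation.ReflTransGen.mono (fun a b hab => h3 c a b hab) _ _ h
  refine ⟨LF.exists _ (fun v => ?_) h7 (fun v => ?_), h5, h3⟩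
  · rw [hsum]
    exact Finset.sum_eq_zero fun c _ => (hD c).diag v
  · by_cases hv : ∃ c, dg (D c) v ≠ 0
    · obtain ⟨c, hc⟩ := hv
      obtain ⟨e, he, hve⟩ := (hD c).ex v
      by_cases he0 : dg (∑ c, D c) e ≤ 1
      · exact ⟨e, he0, h8 c v e hve⟩
      · have he1 : ∃ c', c' ≠ c ∧ dg (D c') e ≠ 0 := by
          by_contra hcon
          push Not at hcon
          apply he0
          rw [h5, Finset.sum_eq_single c (fun c' _ hc' => hcon c' hc')
            (fun h => absurd (Finset.mem_univ c) h)]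
          exact he
        obtain ⟨c', hne, hc'⟩ := he1
        have he2 : dg (D c) e ≠ 0 := by
          rcases Relation.ReflTransGen.cases_tail hve with h | ⟨w, -, hw⟩
          · rw [h]
            exact hc
          · exact GluA_dg' hw
        have h9 := hth c c' hne.symm e he2 hc'
        refine ⟨θD c e, ?_, Relation.ReflTransGen.trans (h8 c v e hve)
          (h8 c e _ ((hD c).con e he))⟩
        rw [h5, Finset.sum_eq_single c (fun c'' _ hc'' => h9 c'' hc'')
          (fun h => absurd (Finset.mem_univ c) h)]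
        exact (hD c).low e he
    · push Not at hv
      refine ⟨v, ?_, Relation.ReflTransGen.refl⟩
      rw [h5, Finset.sum_eq_zero fun c _ => hv c]
      exact Nat.zero_le 1

end Pool.Agent.H.MP_5bc4af.L4
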