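import Pool.Agent.H.MP_5bc4af_co.L4.Asm
import Pool.Agent.H.MP_5bc4af_co.L3.Cyc

/-!
# Groups of `m` permutations

`part`: for a finset `J` of at most `m` indices take an enumeration of `{j ∈ J | σ j ≠ 1}` (for example
`Finset.equivFin`), extended to `ℕ` by `1`, and `asm` with its number `m' ≤ m` of elements
(`Lg (80 m)` implies `Lg (80 m')`); `chi 1 = 0`.
`grpm`: induction on `k` in steps of `m` (or split `univ : Finset (Fin k)` into `⌈k / m⌉` sets with at
most `m` elements): `k + ⌈k / m⌉` cycles, `⌈k / m⌉ = (k + m - 1) / m`.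
-/

namespace Pool.Agent.H.MP_5bc4af.L4

open Finset Pool.Agent.H.MP_5bc4af.H5 Pool.Agent.H.MP_5bc4af.L3

variable {V : Type*} [Fintype V] [DecidableEq V]

theorem part {k m : ℕ} (σ : Fin k → Equiv.Perm V) (h3 : ∀ j, P3 (σ j))
    (hd : ∀ i j, i ≠ j → Dj (σ i) (σ j)) (hg : ∀ j, Lg (80 * m) (σ j)) (J : Finset (Fin k))
    (hJ : J.card ≤ m) : Cov (∑ j ∈ J, chi (σ j)) (J.card + 1) := by
  classical
  set J' : Finset (Fin k) := J.filter fun j => σ j ≠ 1 with hJ'
  have hcard : J'.card ≤ J.card := card_le_card (filter_subset _ _)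
  obtain ⟨τ, hτ⟩ : ∃ τ : ℕ → Equiv.Perm V, ∀ c (h : c < J'.card),
      τ c = σ (J'.equivFin.symm ⟨c, h⟩ : Fin k) :=
    ⟨fun c => if h : c < J'.card then σ (J'.equivFin.symm ⟨c, h⟩ : Fin k) else 1,
      fun c h => dif_pos h⟩
  have h1 : Cov (∑ c ∈ range J'.card, chi (τ c)) (J'.card + 1) := by
    refine asm τ ?_ ?_ ?_ ?_
    · intro c hc
      rw [hτ c hc]
      exact h3 _
    · intro c c' hc hc' hne
      rw [hτ c hc, hτ c' hc']
      refine hd _ _ fun h => hne ?_
      have h4 := J'.equivFin.symm.injective (Subtype.ext h)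
      exact congrArg Fin.val h4
    · intro c hc
      rw [hτ c hc]
      exact (mem_filter.1 (J'.equivFin.symm ⟨c, hc⟩).2).2
    · intro c hc x l hx hl hlt
      rw [hτ c hc] at hx ⊢
      exact hg _ x l hx hl (hlt.trans_le (Nat.mul_le_mul_left 80 (hcard.trans hJ)))
  have h2 : ∑ c ∈ range J'.card, chi (τ c) = ∑ j ∈ J, chi (σ j) := by
    rw [Finset.sum_range]
    have h4 : ∀ c : Fin J'.card, chi (τ c) = chi (σ (J'.equivFin.symm c : Fin k)) := by
      intro c
      rw [hτ c c.2]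
    rw [Finset.sum_congr rfl fun c _ => h4 c,
      Equiv.sum_comp J'.equivFin.symm (fun x : J' => chi (σ (x : Fin k))),
      Finset.sum_coe_sort J' (fun j => chi (σ j)), hJ']
    refine Finset.sum_filter_of_ne fun j _ hj h => hj ?_
    rw [h, chi_one]
  rw [h2] at h1
  exact h1.mono (by omega)

theorem grpm {k m : ℕ} (hm : 1 ≤ m) (σ : Fin k → Equiv.Perm V) (h3 : ∀ j, P3 (σ j))
    (hd : ∀ i j, i ≠ j → Dj (σ i) (σ j)) (hg : ∀ j, Lg (80 * m) (σ j)) :
    Cov (∑ j, chi (σ j)) (k + (k + m - 1) / m) := by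
  classical
  set n := (k + m - 1) / m with hn
  have hmap : ∀ j : Fin k, (j : ℕ) / m ∈ range n := by
    intro j
    rw [mem_range, hn]
    have h1 := j.2
    have h2 : (k + m - 1) / m = (k - 1) / m + 1 := by
      have h4 : k + m - 1 = k - 1 + m := by omega
      rw [h4, Nat.add_div_right _ hm]
    rw [h2]
    exact Nat.lt_succ_of_le (Nat.div_le_div_right (by omega))
  have hc : ∀ q : ℕ, (univ.filter fun j : Fin k => (j : ℕ) / m = q).card ≤ m := by
    intro q
    refine (card_le_card_of_injOn (t := range m) (fun j : Fin k => (j : ℕ) % m) ?_ ?_).trans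
      (card_range m).le
    · intro j _
      exact mem_coe.2 (mem_range.2 (Nat.mod_lt _ hm))
    · intro i hi j hj hij
      have h1 := (mem_filter.1 (mem_coe.1 hi)).2
      have h2 := (mem_filter.1 (mem_coe.1 hj)).2
      have h4 : (i : ℕ) % m = (j : ℕ) % m := hij
      apply Fin.ext
      rw [← Nat.div_add_mod (i : ℕ) m, ← Nat.div_add_mod (j : ℕ) m, h1, h2, h4]
  have h1 := Cov.sum (range n)
    (fun q => ∑ j ∈ univ.filter (fun j : Fin k => (j : ℕ) / m = q), chi (σ j))
    (fun q => (univ.filter fun j : Fin k => (j : ℕ) / m = q).card + 1)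
    (fun q _ => part σ h3 hd hg _ (hc q))
  have h2 : ∑ q ∈ range n, ∑ j ∈ univ.filter (fun j : Fin k => (j : ℕ) / m = q), chi (σ j) =
      ∑ j, chi (σ j) := by
    exact Finset.sum_fiberwise_of_maps_to (fun j _ => hmap j) _
  have h4 : ∑ q ∈ range n, ((univ.filter fun j : Fin k => (j : ℕ) / m = q).card + 1) = k + n := by
    rw [Finset.sum_add_distrib, ← Finset.card_eq_sum_card_fiberwise (fun j _ => hmap j)]
    simp
  rw [h2, h4] at h1
  exact h1

end Pool.Agent.H.MP_5bc4af.L4
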